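import Mathlib
import Pool.Agent.H391R2.HitSq

/-! # Determinant method over a general domain: generic part -/

namespace Pool.Agent.W200.IG

open Polynomial

section gen

variable {O : Type*} [CommRing O]

/-- The determinant of the values of polynomials at multiples of `q`. -/
theorem pow_dvd_det {J : Type*} [Fintype J] [DecidableEq J] (g : J → O[X]) (u : J → O) (q : O)
    (hu : ∀ i, q ∣ u i) :
    q ^ ((Fintype.card J) * (Fintype.card J - 1) / 2) ∣
      (Matrix.of fun i j : J => (g j).eval (u i)).det := by
  classical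
  obtain ⟨L, hL⟩ : ∃ L : ℕ, ∀ j, (g j).natDegree < L := by
    refine ⟨(Finset.univ.sup fun j => (g j).natDegree) + 1, fun j => ?_⟩
    exact Nat.lt_succ_of_le (Finset.le_sup (f := fun j => (g j).natDegree) (Finset.mem_univ j))
  rw [← Matrix.det_transpose]
  have h1 : (Matrix.of fun i j : J => (g j).eval (u i)).transpose =
      fun j => ∑ l : Fin L, (g j).coeff l • (fun i => (u i) ^ (l : ℕ)) := by
    ext j i
    simp only [Matrix.transpose_apply, Matrix.of_apply, Finset.sum_apply, Pi.smul_apply,
      smul_eq_mul]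
    rw [Polynomial.eval_eq_sum_range' (hL j), Finset.sum_range]
  have h2 : (Matrix.of fun i j : J => (g j).eval (u i)).transpose.det =
      ∑ r : J → Fin L, (∏ j, (g j).coeff (r j)) *
        Matrix.det (fun j i => (u i) ^ ((r j : Fin L) : ℕ)) := by
    rw [h1]
    have := (Matrix.detRowAlternating (n := J) (R := O)).toMultilinearMap.map_sum
      (fun j (l : Fin L) => (g j).coeff l • (fun i => (u i) ^ (l : ℕ)))
    refine this.trans ?_
    refine Finset.sum_congr rfl fun r _ => ?_
    rw [MultilinearMap.map_smul_univ]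
    rfl
  rw [h2]
  refine Finset.dvd_sum fun r _ => Dvd.dvd.mul_left ?_ _
  by_cases hr : Function.Injective fun j => ((r j : Fin L) : ℕ)
  · choose w hw using hu
    have h3 : (fun j i => (u i) ^ ((r j : Fin L) : ℕ) : Matrix J J O) =
        Matrix.of fun j i => q ^ ((r j : Fin L) : ℕ) *
          (Matrix.of fun j i => (w i) ^ ((r j : Fin L) : ℕ) : Matrix J J O) j i := by
      ext j i
      simp only [Matrix.of_apply]
      rw [← mul_pow, ← hw]
    rw [h3, Matrix.det_mul_column]
    rw [Finset.prod_pow_eq_pow_sum]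
    exact (pow_dvd_pow q (H391R2.sum_le_of_injective _ hr)).mul_right _
  · have h4 : Matrix.det (fun j i => (u i) ^ ((r j : Fin L) : ℕ) : Matrix J J O) = 0 := by
      rw [Function.Injective] at hr
      push Not at hr
      obtain ⟨a, b, hab, hne⟩ := hr
      apply Matrix.det_zero_of_row_eq hne
      ext i
      simp only [hab]
    rw [h4]
    exact dvd_zero _

/-- Congruence of values. -/
theorem evalEval_congr (G : O[X][X]) (p a₀ x₀ u y : O) (hu : p ∣ u) (hy : p ∣ y - x₀) :
    p ∣ G.evalEval (a₀ + u) y - G.evalEval a₀ x₀ := by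
  have h1 : y - x₀ ∣ G.evalEval (a₀ + u) y - G.evalEval (a₀ + u) x₀ := by
    rw [← Polynomial.map_evalRingHom_eval, ← Polynomial.map_evalRingHom_eval]
    exact Polynomial.sub_dvd_eval_sub _ _ _
  have h2 : u ∣ G.evalEval (a₀ + u) x₀ - G.evalEval a₀ x₀ := by
    have := Polynomial.sub_dvd_eval_sub (a₀ + u) a₀ (G.eval (C x₀))
    simpa [Polynomial.evalEval] using this
  have h3 := dvd_add (hy.trans h1) (hu.trans h2)
  simpa using h3

/-- Taylor expansion. -/
theorem evalEval_taylor (h : O[X][X]) (a x d : O) :
    ∃ k : O, h.evalEval a (x + d) = h.evalEval a x + (derivative h).evalEval a x * d + k * d ^ 2 := by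
  obtain ⟨k, hk⟩ := Polynomial.binomExpansion (h.map (evalRingHom a)) x d
  refine ⟨k, ?_⟩
  rw [← Polynomial.map_evalRingHom_eval, hk, ← Polynomial.map_evalRingHom_eval,
    ← Polynomial.map_evalRingHom_eval, derivative_map]

/-- Hensel lifting of a simple root along `T ≡ a₀ mod p`, in terms of polynomials. -/
theorem hensel_poly (h : O[X][X]) (p : O) (a₀ x₀ w : O) (h0 : p ∣ h.evalEval a₀ x₀)
    (hw : p ∣ 1 - w * (derivative h).evalEval a₀ x₀) (n : ℕ) :
    ∃ P : O[X], ∀ u : O, p ∣ u → p ∣ P.eval u - x₀ ∧
      p ^ (n + 1) ∣ h.evalEval (a₀ + u) (P.eval u) := by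
  induction n with
  | zero =>
    refine ⟨C x₀, fun u hu => ⟨by simp, ?_⟩⟩
    have := evalEval_congr h p a₀ x₀ u x₀ hu (by simp)
    simp only [zero_add, pow_one, eval_C]
    have h2 := dvd_add this h0
    simpa using h2
  | succ n ih =>
    obtain ⟨P, hP⟩ := ih
    refine ⟨P - C w * (h.map (compRingHom (C a₀ + X))).eval P, fun u hu => ?_⟩
    obtain ⟨h1, h2⟩ := hP u hu
    have h3 : (P - C w * (h.map (compRingHom (C a₀ + X))).eval P).eval u =
        P.eval u + -(w * h.evalEval (a₀ + u) (P.eval u)) := by
      rw [eval_sub, eval_mul, eval_C, sub_eq_add_neg]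
      congr 3
      have h4 : (eval P (h.map (compRingHom (C a₀ + X)))).eval u =
          ((h.map (compRingHom (C a₀ + X))).map (evalRingHom u)).eval (P.eval u) := by
        exact (Polynomial.eval_map_apply (evalRingHom u) P).symm
      rw [h4, Polynomial.map_map, ← Polynomial.map_evalRingHom_eval]
      congr 2
      ext q
      simp
      simp
    rw [h3]
    constructor
    · have h5 : p ∣ w * h.evalEval (a₀ + u) (P.eval u) :=
        Dvd.dvd.mul_left ((dvd_pow_self p (by omega)).trans h2) _
      have h6 := dvd_sub h1 h5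
      have h7 : P.eval u + -(w * h.evalEval (a₀ + u) (P.eval u)) - x₀ =
        P.eval u - x₀ - w * h.evalEval (a₀ + u) (P.eval u) := by ring
      rw [h7]
      exact h6
    · obtain ⟨k, hk⟩ := evalEval_taylor h (a₀ + u) (P.eval u)
        (-(w * h.evalEval (a₀ + u) (P.eval u)))
      rw [hk]
      have h6 : p ∣ 1 - w * (derivative h).evalEval (a₀ + u) (P.eval u) := by
        have h7 := evalEval_congr (derivative h) p a₀ x₀ u (P.eval u) hu h1
        have h8 := dvd_sub hw (Dvd.dvd.mul_left h7 w)
        have h9 : 1 - w * (derivative h).evalEval (a₀ + u) (P.eval u) =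
          1 - w * (derivative h).evalEval a₀ x₀ -
          w * ((derivative h).evalEval (a₀ + u) (P.eval u) - (derivative h).evalEval a₀ x₀) := by
          ring
        rw [h9]
        exact h8
      set e := h.evalEval (a₀ + u) (P.eval u) with he
      set D := (derivative h).evalEval (a₀ + u) (P.eval u) with hD
      have h9 : e + D * -(w * e) + k * (-(w * e)) ^ 2 =
          (1 - w * D) * e + k * w ^ 2 * (e * e) := by ring
      rw [h9]
      apply dvd_add
      · rw [pow_succ, mul_comm (1 - w * D) e]
        exact mul_dvd_mul h2 h6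
      · apply Dvd.dvd.mul_left
        have : p ^ (n + 1 + 1) ∣ p ^ (n + 1) * p ^ (n + 1) := by
          rw [← pow_add]
          exact pow_dvd_pow p (by omega)
        exact this.trans (mul_dvd_mul h2 h2)

/-- The roots in a residue class are given by one polynomial modulo `p ^ n`. -/
theorem root_congr [IsDomain O] [IsPrincipalIdealRing O] (h : O[X][X]) (p : O) (hp : Prime p)
    (a₀ x₀ : O)
    (h1 : ¬ p ∣ (derivative h).evalEval a₀ x₀) (h0 : p ∣ h.evalEval a₀ x₀) (n : ℕ) :
    ∃ P : O[X], ∀ u x : O, p ∣ u → p ∣ x - x₀ → h.evalEval (a₀ + u) x = 0 →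
      p ^ n ∣ x - P.eval u := by
  have hcop : IsCoprime p ((derivative h).evalEval a₀ x₀) :=
    (hp.irreducible.coprime_iff_not_dvd).2 h1
  obtain ⟨a, w, haw⟩ := hcop
  obtain ⟨P, hP⟩ := hensel_poly h p a₀ x₀ w h0 ⟨a, by linear_combination (-1) * haw⟩ n
  refine ⟨P, fun u x hu hx hroot => ?_⟩
  obtain ⟨h2, h3⟩ := hP u hu
  obtain ⟨k, hk⟩ := evalEval_taylor h (a₀ + u) (P.eval u) (x - P.eval u)
  rw [add_sub_cancel, hroot] at hk
  have h4 : p ∣ x - P.eval u := by
    have := dvd_sub hx h2
    simpa using this
  have h5 : ¬ p ∣ (derivative h).evalEval (a₀ + u) (P.eval u) + k * (x - P.eval u) := by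
    intro h6
    apply h1
    have h7 := evalEval_congr (derivative h) p a₀ x₀ u (P.eval u) hu h2
    have h8 := dvd_sub (dvd_sub h6 (Dvd.dvd.mul_left h4 k)) h7
    have h9 : (derivative h).evalEval a₀ x₀ =
      (derivative h).evalEval (a₀ + u) (P.eval u) + k * (x - P.eval u) - k * (x - P.eval u) -
        ((derivative h).evalEval (a₀ + u) (P.eval u) - (derivative h).evalEval a₀ x₀) := by ring
    rw [h9]
    exact h8
  have h6 : p ^ n ∣ (x - P.eval u) *
      ((derivative h).evalEval (a₀ + u) (P.eval u) + k * (x - P.eval u)) := by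
    have h7 : (x - P.eval u) *
      ((derivative h).evalEval (a₀ + u) (P.eval u) + k * (x - P.eval u)) =
      - h.evalEval (a₀ + u) (P.eval u) := by linear_combination (-1) * hk
    rw [h7]
    exact ((pow_dvd_pow p (Nat.le_succ n)).trans h3).neg_right
  exact (IsCoprime.pow_left ((hp.irreducible.coprime_iff_not_dvd).2 h5)).dvd_of_dvd_mul_right h6

theorem dvd_det_sub {J : Type*} [Fintype J] [DecidableEq J] (M M' : Matrix J J O) (m : O)
    (h : ∀ i j, m ∣ M i j - M' i j) : m ∣ M.det - M'.det := by
  have h1 : M.map (Ideal.Quotient.mk (Ideal.span {m})) =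
      M'.map (Ideal.Quotient.mk (Ideal.span {m})) := by
    ext i j
    simp only [Matrix.map_apply]
    rw [Ideal.Quotient.eq, Ideal.mem_span_singleton]
    exact h i j
  rw [← Ideal.mem_span_singleton, ← Ideal.Quotient.eq, RingHom.map_det, RingHom.map_det]
  congr 1

end gen

section aux

variable {O : Type} [CommRing O] [IsDomain O]

/-- If all maximal minors of the monomial matrix vanish, the points lie on a curve of degree at
most one in the second variable. -/
theorem aux_linear (R : ℕ) {ι : Type} (t x : ι → O)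
    (hdet : ∀ u : (Fin (R + 1) × Fin 2) → ι,
      (Matrix.of fun i j : Fin (R + 1) × Fin 2 =>
        t (u i) ^ (j.1 : ℕ) * x (u i) ^ (j.2 : ℕ)).det = 0) :
    ∃ G0 G1 : O[X], (G0 ≠ 0 ∨ G1 ≠ 0) ∧ G0.natDegree ≤ R ∧ G1.natDegree ≤ R ∧
      ∀ i, G0.eval (t i) + G1.eval (t i) * x i = 0 := by
  classical
  let K := FractionRing O
  let ψ : O →+* K := algebraMap O K
  have hψ : Function.Injective ψ := IsFractionRing.injective O K
  let v : ι → ((Fin (R + 1) × Fin 2) → K) :=
    fun i j => ψ (t i ^ (j.1 : ℕ) * x i ^ (j.2 : ℕ))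
  by_cases hspan : Submodule.span K (Set.range v) = ⊤
  · exfalso
    obtain ⟨κ, a, ha, hsp, hli⟩ := exists_linearIndependent' K v
    have hb := Module.Basis.mk hli (by rw [hsp, hspan])
    let e := hb.indexEquiv (Pi.basisFun K (Fin (R + 1) × Fin 2))
    have h1 := hli.comp e.symm e.symm.injective
    have h2 := hdet (fun i => a (e.symm i))
    set M : Matrix (Fin (R + 1) × Fin 2) (Fin (R + 1) × Fin 2) O :=
      Matrix.of fun i j : Fin (R + 1) × Fin 2 =>
        t (a (e.symm i)) ^ (j.1 : ℕ) * x (a (e.symm i)) ^ (j.2 : ℕ) with hM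
    have h3 : IsUnit (M.map ψ) := by
      rw [← Matrix.linearIndependent_rows_iff_isUnit]
      exact h1
    rw [Matrix.isUnit_iff_isUnit_det] at h3
    have h4 : (M.map ψ).det = 0 := by
      have := RingHom.map_det ψ M
      rw [h2, map_zero] at this
      exact this.symm
    rw [h4] at h3
    exact not_isUnit_zero h3
  · obtain ⟨f, hf, hker⟩ := Submodule.exists_le_ker_of_lt_top _ (lt_top_iff_ne_top.2 hspan)
    obtain ⟨b, hb⟩ := IsLocalization.exist_integer_multiples_of_finite (nonZeroDivisors O)
      (fun j : Fin (R + 1) × Fin 2 => f (Pi.single j 1))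
    choose c hc using hb
    have hb0 : ψ (b : O) ≠ 0 := by
      rw [Ne, map_eq_zero_iff ψ hψ]
      exact nonZeroDivisors.ne_zero b.2
    have hc' : ∀ j, ψ (c j) = ψ (b : O) * f (Pi.single j 1) := by
      intro j
      have := hc j
      rw [Algebra.smul_def] at this
      exact this
    let G : Fin 2 → O[X] := fun β => ∑ α : Fin (R + 1), C (c (α, β)) * X ^ (α : ℕ)
    have hcoeff : ∀ β (α : Fin (R + 1)), (G β).coeff α = c (α, β) := by
      intro β α
      simp only [G, finsetSum_coeff, coeff_C_mul, coeff_X_pow]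
      rw [Finset.sum_eq_single α]
      · simp
      · intro α' _ hne
        rw [if_neg, mul_zero]
        intro h
        exact hne (Fin.ext h.symm)
      · simp
    have hdeg : ∀ β, (G β).natDegree ≤ R := by
      intro β
      apply natDegree_sum_le_of_forall_le
      intro α _
      refine (natDegree_C_mul_X_pow_le _ _).trans (Nat.lt_succ_iff.1 α.2)
    refine ⟨G 0, G 1, ?_, hdeg 0, hdeg 1, ?_⟩
    · by_contra hcon
      push Not at hcon
      apply hf
      apply LinearMap.pi_ext
      intro j r
      have h1 : c j = 0 := by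
        rcases j with ⟨α, β⟩
        rw [← hcoeff]
        fin_cases β
        · simp only [Fin.zero_eta, hcon.1, coeff_zero]
        · simp only [Fin.mk_one, hcon.2, coeff_zero]
      have h2 : f (Pi.single j 1) = 0 := by
        have := hc' j
        rw [h1, map_zero] at this
        rcases mul_eq_zero.1 this.symm with h | h
        · exact absurd h hb0
        · exact h
      have h3 : (Pi.single j r : (Fin (R + 1) × Fin 2) → K) = r • Pi.single j 1 := by
        rw [← Pi.single_smul, smul_eq_mul, mul_one]
      rw [h3, map_smul, h2, smul_zero, LinearMap.zero_apply]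
    · intro i
      have h1 : f (v i) = 0 := hker (Submodule.subset_span ⟨i, rfl⟩)
      have h2 : v i = ∑ j, v i j • (Pi.single j 1 : (Fin (R + 1) × Fin 2) → K) := by
        ext k
        simp [Finset.sum_apply, Pi.single_apply]
      rw [h2, map_sum] at h1
      simp only [map_smul, smul_eq_mul] at h1
      have h3 : ψ ((G 0).eval (t i) + (G 1).eval (t i) * x i) =
          ψ (b : O) * ∑ j, v i j * f (Pi.single j 1) := by
        simp only [G, eval_finsetSum, eval_mul, eval_C, eval_pow, eval_X]
        rw [Fintype.sum_prod_type, Finset.mul_sum]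
        rw [Finset.sum_mul, ← Finset.sum_add_distrib, map_sum]
        refine Finset.sum_congr rfl fun α _ => ?_
        rw [Fin.sum_univ_two]
        simp only [v]
        simp only [map_add, map_mul, map_pow]
        rw [hc', hc']
        simp
        ring
      rw [h1, mul_zero] at h3
      exact (map_eq_zero_iff ψ hψ).1 h3

variable [IsIntegrallyClosed O[X]]

/-- The resultant with a polynomial of degree at most one in the second variable. -/
theorem exists_res (h : O[X][X]) (hm : h.Monic) (hroot : ∀ g : O[X], h.eval g ≠ 0) (D : ℕ)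
    (hD : ∀ i, (h.coeff i).natDegree ≤ D) (R : ℕ)
    (G0 G1 : O[X]) (hG : G0 ≠ 0 ∨ G1 ≠ 0) (h0 : G0.natDegree ≤ R) (h1 : G1.natDegree ≤ R) :
    ∃ H : O[X], H ≠ 0 ∧ H.natDegree ≤ D + h.natDegree * R ∧
      ∀ t x : O, h.evalEval t x = 0 → G0.eval t + G1.eval t * x = 0 → H.eval t = 0 := by
  classical
  set d := h.natDegree with hd
  let H : O[X] := ∑ i ∈ Finset.range (d + 1), h.coeff i * (-G0) ^ i * G1 ^ (d - i)
  refine ⟨H, ?_, ?_, ?_⟩
  · intro hH
    by_cases hG1 : G1 = 0
    · have hG0 : G0 ≠ 0 := by
        rcases hG with h | h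
        · exact h
        · exact absurd hG1 h
      have h2 : H = (-G0) ^ d := by
        simp only [H, hG1]
        rw [Finset.sum_eq_single d]
        · rw [Nat.sub_self, pow_zero, mul_one, hd, hm.coeff_natDegree, one_mul]
        · intro i hi hne
          rw [zero_pow, mul_zero]
          have := Finset.mem_range.1 hi
          omega
        · simp
      rw [h2] at hH
      exact pow_ne_zero d (neg_ne_zero.2 hG0) hH
    · let K := FractionRing O[X]
      let φ := algebraMap O[X] K
      have hφ : Function.Injective φ := IsFractionRing.injective _ _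
      have hφ1 : φ G1 ≠ 0 := by
        rw [Ne, map_eq_zero_iff φ hφ]; exact hG1
      set y : K := -φ G0 / φ G1 with hy
      have h2 : (h.map φ).eval y = 0 := by
        have h3 : φ G1 ^ d * (h.map φ).eval y = φ H := by
          rw [eval_eq_sum_range, hm.natDegree_map, ← hd, Finset.mul_sum, map_sum]
          refine Finset.sum_congr rfl fun i hi => ?_
          have hi' : i ≤ d := Nat.lt_succ_iff.1 (Finset.mem_range.1 hi)
          rw [coeff_map, map_mul, map_mul, map_pow, map_pow, map_neg]
          have h4 : φ G1 ^ d = φ G1 ^ (d - i) * φ G1 ^ i := by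
            rw [← pow_add, Nat.sub_add_cancel hi']
          have h5 : (-φ G0) ^ i = y ^ i * φ G1 ^ i := by
            rw [← mul_pow, hy, div_mul_cancel₀ _ hφ1]
          rw [h4, h5]
          ring
        rw [hH, map_zero] at h3
        exact (mul_eq_zero.1 h3).resolve_left (pow_ne_zero _ hφ1)
      have h3 : IsIntegral O[X] y := ⟨h, hm, by rw [← eval_map]; exact h2⟩
      obtain ⟨g, hg⟩ := IsIntegrallyClosed.isIntegral_iff.1 h3
      apply hroot g
      apply hφ
      rw [map_zero, ← h2, ← hg, eval_map_apply]
  · apply natDegree_sum_le_of_forall_le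
    intro i hi
    have hi' : i ≤ d := Nat.lt_succ_iff.1 (Finset.mem_range.1 hi)
    refine natDegree_mul_le.trans ?_
    have h2 : (h.coeff i * (-G0) ^ i).natDegree ≤ D + i * R := by
      refine natDegree_mul_le.trans (Nat.add_le_add (hD i) ?_)
      refine natDegree_pow_le.trans (Nat.mul_le_mul_left _ ?_)
      rw [natDegree_neg]; exact h0
    have h3 : (G1 ^ (d - i)).natDegree ≤ (d - i) * R :=
      natDegree_pow_le.trans (Nat.mul_le_mul_left _ h1)
    have h4 : d * R = i * R + (d - i) * R := by
      rw [← Nat.add_mul, Nat.add_sub_cancel' hi']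
    omega
  · intro t x hx hG'
    have h2 : H.eval t = G1.eval t ^ d * h.evalEval t x := by
      rw [← map_evalRingHom_eval,
        eval_eq_sum_range' (p := h.map (evalRingHom t)) (n := d + 1), Finset.mul_sum]
      · simp only [H, eval_finsetSum]
        refine Finset.sum_congr rfl fun i hi => ?_
        have hi' : i ≤ d := Nat.lt_succ_iff.1 (Finset.mem_range.1 hi)
        rw [coeff_map, eval_mul, eval_mul, eval_pow, eval_pow, eval_neg]
        have h4 : eval t G1 ^ d = eval t G1 ^ (d - i) * eval t G1 ^ i := by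
          rw [← pow_add, Nat.sub_add_cancel hi']
        have h5 : -eval t G0 = eval t G1 * x := by linear_combination (-1) * hG'
        rw [h4, h5, mul_pow]
        simp only [coe_evalRingHom]
        ring
      · exact Nat.lt_succ_of_le natDegree_map_le
    rw [h2, hx, mul_zero]

end aux

end Pool.Agent.W200.IG
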