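import Mathlib
import Pool.Agent.W200.IG.HA
import Pool.Agent.H391R2.HitMulti

/-! # Hilbert irreducibility over `κ[X]`, `κ` finite: one parameter, root form -/

namespace Pool.Agent.W200.IG

open Polynomial

/-- Separability over the fraction field, as an identity. -/
def RSep {A : Type*} [CommRing A] (f : A[X]) : Prop :=
  ∃ (U V : A[X]) (r : A), r ≠ 0 ∧ U * f + V * derivative f = C r

theorem RSep.sep {A L : Type*} [CommRing A] [Field L] {f : A[X]} (h : RSep f) (φ : A →+* L)
    (hφ : Function.Injective φ) : (f.map φ).Separable := by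
  obtain ⟨U, V, r, hr, h⟩ := h
  have hr' : φ r ≠ 0 := by rwa [Ne, map_eq_zero_iff φ hφ]
  refine ⟨C (φ r)⁻¹ * U.map φ, C (φ r)⁻¹ * V.map φ, ?_⟩
  have h1 := congrArg (Polynomial.map φ) h
  rw [Polynomial.map_add, Polynomial.map_mul, Polynomial.map_mul, map_C, ← derivative_map] at h1
  have h2 : C (φ r)⁻¹ * C (φ r) = (1 : L[X]) := by
    rw [← C_mul, inv_mul_cancel₀ hr', C_1]
  linear_combination (C (φ r)⁻¹) * h1 + h2

theorem rsep_of_sep {A L : Type*} [CommRing A] [IsDomain A] [Field L] {f : A[X]} (φ : A →+* L)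
    (hφ : Function.Injective φ) (h : (f.map φ).Separable) : RSep f := by
  let K := FractionRing A
  let ψ : K →+* L := IsFractionRing.lift hφ
  have h1 : (f.map (algebraMap A K)).map ψ = f.map φ := by
    rw [Polynomial.map_map]
    congr 1
    ext a
    exact IsFractionRing.lift_algebraMap hφ a
  have hsep : (f.map (algebraMap A K)).Separable := by
    rw [← Polynomial.separable_map ψ, h1]
    exact h
  have hinj : Function.Injective (algebraMap A K) := IsFractionRing.injective _ _
  obtain ⟨a, b, hab⟩ := hsep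
  obtain ⟨c, U, hc, hU⟩ := H391R2.exists_clear (R := A) a
  obtain ⟨d, V, hd, hV⟩ := H391R2.exists_clear (R := A) b
  refine ⟨C d * U, C c * V, c * d, mul_ne_zero hc hd, ?_⟩
  apply map_injective (algebraMap A K) hinj
  rw [Polynomial.map_add, Polynomial.map_mul, Polynomial.map_mul, Polynomial.map_mul,
    Polynomial.map_mul, map_C, map_C, map_C, hU, hV, ← derivative_map, map_mul, C_mul]
  linear_combination (C (algebraMap A K c) * C (algebraMap A K d)) * hab

theorem natDegree_det_le {κ : Type*} [CommRing κ] {J : Type*} [Fintype J] [DecidableEq J]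
    (M : Matrix J J κ[X]) (B : J → ℕ)
    (hM : ∀ i j, (M i j).natDegree ≤ B j) : M.det.natDegree ≤ ∑ j, B j := by
  rw [Matrix.det_apply]
  apply natDegree_sum_le_of_forall_le
  intro σ _
  have h1 : (∏ i, M (σ i) i).natDegree ≤ ∑ j, B j :=
    (natDegree_prod_le _ _).trans (Finset.sum_le_sum fun i _ => hM _ _)
  rcases Int.units_eq_one_or (Equiv.Perm.sign σ) with h | h
  · rw [h, one_smul]; exact h1
  · rw [h, Units.neg_smul, one_smul, natDegree_neg]; exact h1

/-- Bound for the integral roots. -/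
theorem root_bound {κ : Type} [Field κ] (h : κ[X][X][X]) (hm : h.Monic) (D : ℕ)
    (hD : ∀ i, (h.coeff i).natDegree ≤ D) :
    ∃ C0 : ℕ, ∀ (T : ℕ) (t x : κ[X]), t.natDegree ≤ T → h.evalEval t x = 0 →
      x.natDegree ≤ C0 + D * T := by
  classical
  obtain ⟨C0, hC0⟩ : ∃ C0 : ℕ, ∀ i k, ((h.coeff i).coeff k).natDegree ≤ C0 := by
    refine ⟨(Finset.range (h.natDegree + 1)).sup fun i =>
      (Finset.range ((h.coeff i).natDegree + 1)).sup fun k =>
        ((h.coeff i).coeff k).natDegree, fun i k => ?_⟩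
    by_cases hi : i ≤ h.natDegree
    · by_cases hk : k ≤ (h.coeff i).natDegree
      · refine le_trans ?_ (Finset.le_sup (f := fun i =>
          (Finset.range ((h.coeff i).natDegree + 1)).sup fun k =>
          ((h.coeff i).coeff k).natDegree) (Finset.mem_range.2 (Nat.lt_succ_of_le hi)))
        exact Finset.le_sup (f := fun k => ((h.coeff i).coeff k).natDegree)
          (Finset.mem_range.2 (Nat.lt_succ_of_le hk))
      · rw [coeff_eq_zero_of_natDegree_lt (not_le.1 hk), natDegree_zero]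
        exact Nat.zero_le _
    · rw [coeff_eq_zero_of_natDegree_lt (not_le.1 hi), coeff_zero, natDegree_zero]
      exact Nat.zero_le _
  refine ⟨C0, fun T t x ht hx => ?_⟩
  refine H391R2.natDegree_root_le (h.map (evalRingHom t)) (hm.map _) (C0 + D * T) ?_ x
    (by rw [map_evalRingHom_eval]; exact hx)
  intro i
  rw [coeff_map, coe_evalRingHom, eval_eq_sum_range]
  apply natDegree_sum_le_of_forall_le
  intro k hk
  refine natDegree_mul_le.trans (Nat.add_le_add (hC0 i k) ?_)
  refine natDegree_pow_le.trans (Nat.mul_le_mul ?_ ht)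
  exact (Nat.lt_succ_iff.1 (Finset.mem_range.1 hk)).trans (hD i)

theorem bad_card {κ : Type} [Field κ] (h : κ[X][X][X]) (hm : h.Monic)
    (hroot : ∀ g : κ[X][X], h.eval g ≠ 0) (D : ℕ)
    (hD : ∀ i, (h.coeff i).natDegree ≤ D) (C0 : ℕ)
    (hb : ∀ (T : ℕ) (t x : κ[X]), t.natDegree ≤ T → h.evalEval t x = 0 →
      x.natDegree ≤ C0 + D * T)
    (p : κ[X]) (hp : Prime p) (a₀ x₀ : κ[X]) (hx1 : ¬ p ∣ (derivative h).evalEval a₀ x₀)
    (hx0 : p ∣ h.evalEval a₀ x₀) (k : ℕ) (hk : 1 ≤ k)
    (hz : C0 + 4 * D * a₀.natDegree < 2 * (p ^ k).natDegree)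
    (S : Finset κ[X]) (hS : ∀ u ∈ S, u.natDegree ≤ (p ^ k).natDegree ∧
      ∃ x : κ[X], p ∣ x - x₀ ∧ h.evalEval (a₀ + (p ^ k) ^ 2 * u) x = 0) :
    S.card ≤ D + h.natDegree * (3 * D) := by
  classical
  set z : κ[X] := p ^ k with hzdef
  have hz0 : z ≠ 0 := pow_ne_zero _ hp.ne_zero
  have hpz : p ∣ z := dvd_pow_self _ (by omega)
  set R := 3 * D with hR
  let J := Fin (R + 1) × Fin 2
  have hcardJ : Fintype.card J = 2 * (R + 1) := by
    simp [J, mul_comm]
  have hS' : ∀ u : S, ∃ x : κ[X], p ∣ x - x₀ ∧ h.evalEval (a₀ + z ^ 2 * (u : κ[X])) x = 0 :=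
    fun u => (hS u u.2).2
  choose X0 hX using hS'
  set e : ℕ := (Fintype.card J) * (Fintype.card J - 1) / 2 with he
  have he' : e = (R + 1) * (2 * R + 1) := by
    rw [he, hcardJ]
    have : 2 * (R + 1) * (2 * (R + 1) - 1) = 2 * ((R + 1) * (2 * R + 1)) := by
      have : 2 * (R + 1) - 1 = 2 * R + 1 := by omega
      rw [this]; ring
    rw [this, Nat.mul_div_cancel_left _ (by norm_num)]
  set n : ℕ := k * (2 * e) with hn
  have hpn : p ^ n = z ^ (2 * e) := by rw [hn, pow_mul]
  obtain ⟨P, hP⟩ := root_congr h p hp a₀ x₀ hx1 hx0 n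
  obtain ⟨G0, G1, hG, hG0, hG1, hGe⟩ := aux_linear R (ι := S) (fun u => a₀ + z ^ 2 * (u : κ[X])) X0 (by
    intro u
    set M : Matrix J J κ[X] := Matrix.of fun i j : J =>
      (a₀ + z ^ 2 * ((u i : S) : κ[X])) ^ (j.1 : ℕ) * X0 (u i) ^ (j.2 : ℕ) with hM
    let g : J → κ[X][X] := fun j => (C a₀ + X) ^ (j.1 : ℕ) * P ^ (j.2 : ℕ)
    set M' : Matrix J J κ[X] := Matrix.of fun i j : J => (g j).eval (z ^ 2 * ((u i : S) : κ[X])) with hM'
    have h1 : p ^ n ∣ M'.det := by
      have := pow_dvd_det g (fun i => z ^ 2 * ((u i : S) : κ[X])) (z ^ 2) (fun i => dvd_mul_right _ _)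
      rw [← he, ← pow_mul, ← hpn] at this
      exact this
    have h2 : p ^ n ∣ M.det - M'.det := by
      apply dvd_det_sub
      intro i j
      simp only [hM, hM', Matrix.of_apply, g, eval_mul, eval_pow, eval_add, eval_C, eval_X]
      rw [← mul_sub]
      apply Dvd.dvd.mul_left
      have h3 := hP (z ^ 2 * ((u i : S) : κ[X])) (X0 (u i))
        (Dvd.dvd.mul_right (hpz.trans (dvd_pow_self z (by norm_num))) _) (hX (u i)).1 (hX (u i)).2
      exact h3.trans (sub_dvd_pow_sub_pow _ _ _)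
    have h3 : p ^ n ∣ M.det := by
      have := dvd_add h2 h1
      simpa using this
    set T : ℕ := a₀.natDegree + 3 * z.natDegree with hT
    have ht : ∀ v : S, (a₀ + z ^ 2 * (v : κ[X])).natDegree ≤ T := by
      intro v
      obtain ⟨h4, -⟩ := hS v v.2
      refine (natDegree_add_le _ _).trans (max_le (by omega) ?_)
      refine natDegree_mul_le.trans ?_
      rw [natDegree_pow]
      omega
    let B : J → ℕ := fun j => (j.1 : ℕ) * T + (j.2 : ℕ) * (C0 + D * T)
    have h4 : M.det.natDegree ≤ ∑ j, B j := by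
      apply natDegree_det_le
      intro i j
      simp only [hM, Matrix.of_apply, B]
      refine natDegree_mul_le.trans (Nat.add_le_add ?_ ?_)
      · exact natDegree_pow_le.trans (Nat.mul_le_mul_left _ (ht _))
      · exact natDegree_pow_le.trans (Nat.mul_le_mul_left _ (hb T _ _ (ht _) (hX (u i)).2))
    have h5 : ∑ j, B j = (R + 1) * (C0 + (R + D) * T) := by
      have h6 : ∀ α : Fin (R + 1), ∑ β : Fin 2, B (α, β) = 2 * (α : ℕ) * T + (C0 + D * T) := by
        intro α
        rw [Fin.sum_univ_two]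
        simp only [B]
        simp
        ring
      rw [Fintype.sum_prod_type]
      simp only [h6]
      rw [Finset.sum_add_distrib, Finset.sum_const, Finset.card_univ, Fintype.card_fin,
        ← Finset.sum_mul, ← Finset.mul_sum]
      have h7 : ∑ i : Fin (R + 1), (i : ℕ) = ∑ i ∈ Finset.range (R + 1), i :=
        Fin.sum_univ_eq_sum_range (fun i => i) (R + 1)
      have h8 := Finset.sum_range_id_mul_two (R + 1)
      rw [h7, mul_comm 2, h8]
      simp
      ring
    by_contra hne
    have h6 := natDegree_le_of_dvd h3 hne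
    rw [hpn, natDegree_pow] at h6
    have h7 := h6.trans h4
    rw [h5, he'] at h7
    have h8 : (R + 1) * (2 * (2 * R + 1) * z.natDegree) ≤ (R + 1) * (C0 + (R + D) * T) := by
      calc (R + 1) * (2 * (2 * R + 1) * z.natDegree) = 2 * ((R + 1) * (2 * R + 1)) * z.natDegree := by
            ring
        _ ≤ _ := h7
    have h9 := Nat.le_of_mul_le_mul_left h8 (by omega)
    rw [hT, hR] at h9
    have h10 : 2 * (2 * (3 * D) + 1) * z.natDegree = 12 * (D * z.natDegree) + 2 * z.natDegree := by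
      ring
    have h11 : C0 + (3 * D + D) * (a₀.natDegree + 3 * z.natDegree) =
      (C0 + 4 * D * a₀.natDegree) + 12 * (D * z.natDegree) := by ring
    omega)
  obtain ⟨H, hH0, hHd, hH⟩ := exists_res h hm hroot D hD R G0 G1 hG hG0 hG1
  have hinj : Function.Injective (fun u : κ[X] => a₀ + z ^ 2 * u) := by
    intro u v huv
    have h1 : z ^ 2 ≠ 0 := pow_ne_zero _ hz0
    have h2 : z ^ 2 * u = z ^ 2 * v := add_left_cancel huv
    exact mul_left_cancel₀ h1 h2
  have hsub : S.image (fun u : κ[X] => a₀ + z ^ 2 * u) ⊆ H.roots.toFinset := by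
    intro t ht
    obtain ⟨u, hu, rfl⟩ := Finset.mem_image.1 ht
    rw [Multiset.mem_toFinset, mem_roots hH0]
    exact hH _ (X0 ⟨u, hu⟩) (hX ⟨u, hu⟩).2 (hGe ⟨u, hu⟩)
  calc S.card = (S.image (fun u : κ[X] => a₀ + z ^ 2 * u)).card :=
        (Finset.card_image_of_injective _ hinj).symm
    _ ≤ H.roots.toFinset.card := Finset.card_le_card hsub
    _ ≤ Multiset.card H.roots := Multiset.toFinset_card_le _
    _ ≤ H.natDegree := H.card_roots'
    _ ≤ D + h.natDegree * R := hHd

end Pool.Agent.W200.IG
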