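import Mathlib
import Pool.Agent.W200.IG.HD

/-! # Hilbert irreducibility: passing to several variables (any characteristic) -/

namespace Pool.Agent.W200.IG

open Polynomial

theorem hp_poly {K A : Type} [Field K] [Infinite K] [CommRing A] [IsDomain A] [Algebra K A]
    (hA : HP K A) : HP K A[X] := by
  classical
  intro ι _ f hf hs hroot Fs
  cases nonempty_fintype ι
  by_contra hcon
  push Not at hcon
  have hcast : Function.Injective (algebraMap K A) := FaithfulSMul.algebraMap_injective K A
  choose U V r hr hUV using hs
  -- degree bound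
  have hDex : ∀ ii, ∃ D : ℕ, ∀ i k, (((f ii).coeff i).coeff k).natDegree ≤ D := by
    intro ii
    refine ⟨(Finset.range ((f ii).natDegree + 1)).sup fun i =>
      (Finset.range (((f ii).coeff i).natDegree + 1)).sup fun k =>
        (((f ii).coeff i).coeff k).natDegree, fun i k => ?_⟩
    by_cases hi : i ≤ (f ii).natDegree
    · by_cases hk : k ≤ ((f ii).coeff i).natDegree
      · refine le_trans ?_ (Finset.le_sup (f := fun i =>
          (Finset.range (((f ii).coeff i).natDegree + 1)).sup fun k =>
          (((f ii).coeff i).coeff k).natDegree) (Finset.mem_range.2 (Nat.lt_succ_of_le hi)))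
        exact Finset.le_sup (f := fun k => (((f ii).coeff i).coeff k).natDegree)
          (Finset.mem_range.2 (Nat.lt_succ_of_le hk))
      · rw [coeff_eq_zero_of_natDegree_lt (not_le.1 hk), natDegree_zero]
        exact Nat.zero_le _
    · rw [coeff_eq_zero_of_natDegree_lt (not_le.1 hi), coeff_zero, natDegree_zero]
      exact Nat.zero_le _
  choose D0 hD0 using hDex
  set D : ℕ := ∑ i, D0 i with hDdef
  have hD : ∀ ii i k, (((f ii).coeff i).coeff k).natDegree ≤ D := fun ii i k =>
    (hD0 ii i k).trans (Finset.single_le_sum (f := D0) (fun _ _ => Nat.zero_le _)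
      (Finset.mem_univ ii))
  have hDt : ∀ (ii : ι) (t : K) (i : ℕ),
      (((f ii).map (evalRingHom (algebraMap K A[X] t))).coeff i).natDegree ≤ D := by
    intro ii t i
    rw [coeff_map, coe_evalRingHom, eval_eq_sum_range]
    apply natDegree_sum_le_of_forall_le
    intro k _
    refine natDegree_mul_le.trans ?_
    have h1 : ((algebraMap K A[X] t) ^ k).natDegree = 0 := by
      rw [Polynomial.algebraMap_apply, ← C_pow, natDegree_C]
    rw [h1, add_zero]
    exact hD ii i k
  -- good interpolation points
  obtain ⟨β, hβinj, hβ⟩ : ∃ β : Fin (D + 1) → K, Function.Injective β ∧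
      ∀ b ii, ((r ii).leadingCoeff).eval (algebraMap K A (β b)) ≠ 0 := by
    have hinf : {b : K | ∀ ii, ((r ii).leadingCoeff).eval (algebraMap K A b) ≠ 0}.Infinite := by
      have h1 : {b : K | ∀ ii, ((r ii).leadingCoeff).eval (algebraMap K A b) ≠ 0}ᶜ.Finite := by
        have h2 : {b : K | ∀ ii, ((r ii).leadingCoeff).eval (algebraMap K A b) ≠ 0}ᶜ =
            ⋃ ii, (algebraMap K A) ⁻¹' {a : A | ((r ii).leadingCoeff).eval a = 0} := by
          ext b
          simp
        rw [h2]
        refine Set.finite_iUnion fun ii => ?_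
        refine Set.Finite.preimage hcast.injOn ?_
        refine ((r ii).leadingCoeff.rootSet_finite A).subset ?_
        intro a ha
        rw [mem_rootSet]
        exact ⟨leadingCoeff_ne_zero.2 (hr ii), by simpa using ha⟩
      exact Set.infinite_of_finite_compl h1
    let emb := hinf.natEmbedding
    refine ⟨fun b => emb (b : ℕ), ?_, ?_⟩
    · intro a b hab
      apply Fin.ext
      exact emb.injective (Subtype.ext hab)
    · intro b ii
      exact (emb (b : ℕ)).2 ii
  -- specialisations in the inner variable
  let fb : ι → Fin (D + 1) → A[X][X] := fun ii b =>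
    (f ii).map (mapRingHom (evalRingHom (algebraMap K A (β b))))
  have hfb : ∀ ii b, (fb ii b).Monic := fun ii b => (hf ii).map _
  have hfbs : ∀ ii b, RSep (fb ii b) := by
    intro ii b
    refine ⟨(U ii).map (mapRingHom (evalRingHom (algebraMap K A (β b)))),
      (V ii).map (mapRingHom (evalRingHom (algebraMap K A (β b)))),
      (r ii).map (evalRingHom (algebraMap K A (β b))), ?_, ?_⟩
    · intro h
      apply hβ b ii
      have h1 := congrArg (fun p : A[X] => p.coeff (r ii).natDegree) h
      simpa using h1
    · have h1 := congrArg (Polynomial.map (mapRingHom (evalRingHom (algebraMap K A (β b)))))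
        (hUV ii)
      rw [Polynomial.map_add, Polynomial.map_mul, Polynomial.map_mul, map_C,
        ← derivative_map] at h1
      exact h1
  have hfac : ∀ ii b, ∃ q : A[X][X],
      (Multiset.map (fun a => X - C a) (fb ii b).roots).prod * q = fb ii b ∧
      q.Monic ∧ ∀ g : A[X], q.eval g ≠ 0 := by
    intro ii b
    obtain ⟨q, hq, -, hq0⟩ := exists_prod_multiset_X_sub_C_mul (fb ii b)
    have hqm : q.Monic := (monic_multiset_prod_of_monic _ _
      (fun a _ => monic_X_sub_C a)).of_mul_monic_left (by rw [hq]; exact hfb ii b)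
    refine ⟨q, hq, hqm, fun g hg => ?_⟩
    have : g ∈ q.roots := (mem_roots hqm.ne_zero).2 hg
    rw [hq0] at this
    exact absurd this (Multiset.notMem_zero _)
  choose q hq hqm hqroot using hfac
  have hqs : ∀ ii b, RSep (q ii b) := by
    intro ii b
    have hinj : Function.Injective (algebraMap A[X] (FractionRing A[X])) :=
      IsFractionRing.injective _ _
    apply rsep_of_sep _ hinj
    have h1 := (hfbs ii b).sep _ hinj
    rw [← hq ii b, Polynomial.map_mul] at h1
    exact h1.of_mul_right
  let T : Set K := {t | t ∉ Fs ∧ ∀ ii b (x : A), (q ii b).evalEval (algebraMap K A t) x ≠ 0}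
  have hTinf : T.Infinite := by
    intro hfin
    obtain ⟨t, ht, hx⟩ := hA (ι × Fin (D + 1)) (fun ib => q ib.1 ib.2) (fun ib => hqm _ _)
      (fun ib => hqs _ _) (fun ib => hqroot _ _) (Fs ∪ hfin.toFinset)
    rw [Finset.mem_union, not_or] at ht
    apply ht.2
    rw [Set.Finite.mem_toFinset]
    exact ⟨ht.1, fun ii b x => hx (ii, b) x⟩
  -- the roots
  have hg0 : ∀ t : T, ∃ ii, ∃ g : A[X], (f ii).evalEval (algebraMap K A[X] t) g = 0 :=
    fun t => hcon t t.2.1
  choose i0f g0 hg0 using hg0
  have : Infinite T := hTinf.to_subtype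
  obtain ⟨i0, hi0⟩ := Finite.exists_infinite_fiber i0f
  let T' : Set T := i0f ⁻¹' {i0}
  let g : T' → A[X] := fun t => g0 t
  have hg : ∀ t : T', (f i0).evalEval (algebraMap K A[X] ((t : T) : K)) (g t) = 0 := by
    intro t
    have h1 : i0f t = i0 := t.2
    rw [← h1]
    exact hg0 t
  have hgD : ∀ t : T', (g t).natDegree ≤ D := by
    intro t
    refine H391R2.natDegree_root_le ((f i0).map (evalRingHom (algebraMap K A[X] ((t : T) : K))))
      ((hf i0).map _) D (hDt i0 _) (g t) ?_
    rw [map_evalRingHom_eval]
    exact hg t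
  have hchoice : ∀ (t : T') (b : Fin (D + 1)), ∃ a : (fb i0 b).roots.toFinset,
      (g t).eval (algebraMap K A (β b)) = (a : A[X]).eval (algebraMap K A ((t : T) : K)) := by
    intro t b
    have h1 : (fb i0 b).evalEval (algebraMap K A ((t : T) : K))
        ((g t).eval (algebraMap K A (β b))) = 0 := by
      have h2 := congrArg (eval (algebraMap K A (β b))) (hg t)
      rw [eval_zero] at h2
      rw [← h2]
      simp only [fb]
      have h3 := map_mapRingHom_evalEval (evalRingHom (algebraMap K A (β b))) (f i0)
        (algebraMap K A[X] ((t : T) : K)) (g t)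
      simp only [coe_evalRingHom, Polynomial.algebraMap_apply, eval_C] at h3
      exact h3
    rw [← hq i0 b, evalEval_mul] at h1
    have h2 : (q i0 b).evalEval (algebraMap K A ((t : T) : K))
        ((g t).eval (algebraMap K A (β b))) ≠ 0 := (t : T).2.2 i0 b _
    have h3 := (mul_eq_zero.1 h1).resolve_right h2
    rw [evalEval_multiset_prod, Multiset.prod_eq_zero_iff, Multiset.map_map, Multiset.mem_map] at h3
    obtain ⟨a, ha, ha0⟩ := h3
    refine ⟨⟨a, Multiset.mem_toFinset.2 ha⟩, ?_⟩
    simp only [Function.comp_apply, evalEval_sub, evalEval_X, evalEval_C] at ha0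
    exact sub_eq_zero.1 ha0
  choose c hc using hchoice
  have : Infinite T' := hi0
  obtain ⟨c0, hc0⟩ := Finite.exists_infinite_fiber (fun (t : T') (b : Fin (D + 1)) => c t b)
  -- interpolate
  let ℓ : Fin (D + 1) → A[X] := fun b =>
    (Lagrange.basis Finset.univ β b).map (algebraMap K A)
  have hinjQ : Set.InjOn β ((Finset.univ : Finset (Fin (D + 1))) : Set (Fin (D + 1))) :=
    hβinj.injOn
  have hℓ : ∀ b b' : Fin (D + 1), (ℓ b).eval (algebraMap K A (β b')) = if b = b' then 1 else 0 := by
    intro b b'
    simp only [ℓ]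
    rw [eval_map_apply]
    split_ifs with h
    · have h2 := Lagrange.eval_basis_self hinjQ (Finset.mem_univ b')
      rw [h]
      exact (congrArg (algebraMap K A) h2).trans (map_one _)
    · have h2 := Lagrange.eval_basis_of_ne (s := Finset.univ)
        (v := β) h (Finset.mem_univ b')
      exact (congrArg (algebraMap K A) h2).trans (map_zero _)
  have hℓdeg : ∀ b, (ℓ b).natDegree ≤ D := by
    intro b
    refine natDegree_map_le.trans ?_
    have := Lagrange.degree_basis hinjQ (Finset.mem_univ b)
    have h2 := natDegree_eq_of_degree_eq_some this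
    rw [h2]
    simp
  have hβA : Function.Injective (fun b : Fin (D + 1) => algebraMap K A (β b)) :=
    hcast.comp hβinj
  let G : A[X][X] := ∑ b : Fin (D + 1), C (ℓ b) * ((c0 b : (fb i0 b).roots.toFinset) : A[X]).map C
  have hGt : ∀ t : T', t ∈ (fun (t : T') (b : Fin (D + 1)) => c t b) ⁻¹' {c0} →
      G.eval (algebraMap K A[X] ((t : T) : K)) = g t := by
    intro t ht
    have hct : ∀ b, c t b = c0 b := fun b => congrFun ht b
    have h1 : G.eval (algebraMap K A[X] ((t : T) : K)) =
        ∑ b : Fin (D + 1), ℓ b * C ((g t).eval (algebraMap K A (β b))) := by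
      simp only [G, eval_finsetSum, eval_mul, eval_C]
      refine Finset.sum_congr rfl fun b _ => ?_
      congr 1
      have h2 : algebraMap K A[X] ((t : T) : K) = C (algebraMap K A ((t : T) : K)) := rfl
      rw [h2, eval_map_apply, hc t b, hct b]
    rw [h1]
    apply eq_of_degrees_lt_of_eval_finset_eq
      (Finset.univ.image fun b : Fin (D + 1) => algebraMap K A (β b))
    · rw [Finset.card_image_of_injective _ hβA, Finset.card_univ, Fintype.card_fin]
      refine (degree_sum_le _ _).trans_lt ?_
      rw [Finset.sup_lt_iff]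
      · intro b _
        refine (degree_mul_le _ _).trans_lt ?_
        calc (ℓ b).degree + (C ((g t).eval (algebraMap K A (β b)))).degree
            ≤ (ℓ b).degree + 0 := by gcongr; exact degree_C_le
          _ = (ℓ b).degree := add_zero _
          _ ≤ ((ℓ b).natDegree : WithBot ℕ) := degree_le_natDegree
          _ < ((D + 1 : ℕ) : WithBot ℕ) := by
              exact_mod_cast Nat.lt_succ_of_le (hℓdeg b)
      · exact WithBot.bot_lt_coe _
    · rw [Finset.card_image_of_injective _ hβA, Finset.card_univ, Fintype.card_fin]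
      refine degree_le_natDegree.trans_lt ?_
      exact_mod_cast Nat.lt_succ_of_le (hgD t)
    · intro x hx
      obtain ⟨b', -, rfl⟩ := Finset.mem_image.1 hx
      rw [eval_finsetSum]
      simp only [eval_mul, eval_C, hℓ]
      rw [Finset.sum_eq_single b']
      · simp
      · intro b _ hne
        rw [if_neg hne, zero_mul]
      · simp
  apply hroot i0 G
  apply eq_zero_of_infinite_isRoot
  let emb : ((fun (t : T') (b : Fin (D + 1)) => c t b) ⁻¹' {c0}) → A[X] :=
    fun t => algebraMap K A[X] (((t : T') : T) : K)
  have hemb : Function.Injective emb := by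
    intro a b hab
    apply Subtype.ext
    apply Subtype.ext
    apply Subtype.ext
    apply hcast
    exact C_injective hab
  refine (Set.infinite_range_of_injective hemb).mono ?_
  rintro _ ⟨t, rfl⟩
  change ((f i0).eval G).eval (algebraMap K A[X] (((t : T') : T) : K)) = 0
  have h1 := hg t
  rw [← hGt t t.2] at h1
  rw [← map_evalRingHom_eval] at h1
  have h2 : G.eval (algebraMap K A[X] (((t : T') : T) : K)) =
    evalRingHom (algebraMap K A[X] (((t : T') : T) : K)) G := rfl
  rw [h2, eval_map_apply] at h1
  exact h1

end Pool.Agent.W200.IG
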