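import Mathlib
import Pool.Agent.W200.IG.HE

/-! # Specialisations of polynomial rings over a Hilbertian field -/

namespace Pool.Agent.W200.IG

open Polynomial

theorem RSep.map {A B : Type*} [CommRing A] [CommRing B] {f : A[X]} (h : RSep f) (φ : A →+* B)
    (hφ : Function.Injective φ) : RSep (f.map φ) := by
  obtain ⟨U, V, r, hr, h⟩ := h
  refine ⟨U.map φ, V.map φ, φ r, by rwa [Ne, map_eq_zero_iff φ hφ], ?_⟩
  have h1 := congrArg (Polynomial.map φ) h
  rw [Polynomial.map_add, Polynomial.map_mul, Polynomial.map_mul, map_C, ← derivative_map] at h1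
  exact h1

/-- Specialisations to `K` keeping a finite family of monic polynomials without roots. -/
def SP (K A : Type) [Field K] [CommRing A] [Algebra K A] : Prop :=
  ∀ (ι : Type) [Finite ι] (f : ι → A[X]), (∀ i, (f i).Monic) → (∀ i, RSep (f i)) →
    (∀ i (x : A), (f i).eval x ≠ 0) → ∀ D : A, D ≠ 0 →
    ∃ φ : A →ₐ[K] K, φ D ≠ 0 ∧ ∀ i (x : K), ((f i).map (φ : A →+* K)).eval x ≠ 0

theorem HP.of_equiv {K A A' : Type} [Field K] [CommRing A] [CommRing A'] [Algebra K A]
    [Algebra K A'] (e : A ≃ₐ[K] A') (h : HP K A) : HP K A' := by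
  intro ι _ f hf hs hroot Fs
  have hinj : Function.Injective (mapRingHom (e.symm : A' →+* A)) :=
    map_injective _ e.symm.injective
  set g : ι → A[X][X] := fun i => (f i).map (mapRingHom (e.symm : A' →+* A)) with hg
  have hroot' : ∀ i (q : A[X]), (g i).eval q ≠ 0 := by
    intro i q hq
    apply hroot i (mapRingHom (e : A →+* A') q)
    have h1 := congrArg (mapRingHom (e : A →+* A')) hq
    rw [← eval_map_apply, hg, Polynomial.map_map, map_zero] at h1
    have h2 : (mapRingHom (e : A →+* A')).comp (mapRingHom (e.symm : A' →+* A)) = RingHom.id _ := by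
      ext x <;> simp
    rw [h2, Polynomial.map_id] at h1
    exact h1
  obtain ⟨t, ht, hx⟩ := h ι g (fun i => (hf i).map _) (fun i => (hs i).map _ hinj) hroot' Fs
  refine ⟨t, ht, fun i x hx0 => hx i (e.symm x) ?_⟩
  have h3 := map_mapRingHom_evalEval (e.symm : A' →+* A) (f i) (algebraMap K A' t) x
  have h4 : (e.symm : A' →+* A) (algebraMap K A' t) = algebraMap K A t := e.symm.commutes t
  rw [h4, hx0, map_zero] at h3
  exact h3

theorem SP.of_equiv {K A A' : Type} [Field K] [CommRing A] [CommRing A'] [Algebra K A]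
    [Algebra K A'] (e : A ≃ₐ[K] A') (h : SP K A) : SP K A' := by
  intro ι _ f hf hs hroot D hD
  obtain ⟨φ, h1, h2⟩ := h ι (fun i => (f i).map (e.symm : A' →+* A)) (fun i => (hf i).map _)
    (fun i => (hs i).map _ e.symm.injective) (fun i x hx => by
    apply hroot i (e x)
    have h3 := congrArg e hx
    have h4 := eval_map_apply (f := (e.symm : A' →+* A)) (p := f i) (x := e x)
    have h5 : (e.symm : A' →+* A) (e x) = x := e.symm_apply_apply x
    rw [map_zero] at h3
    rw [h5] at h4
    rw [h4] at h3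
    have h6 : e ((e.symm : A' →+* A) (eval (e x) (f i))) = eval (e x) (f i) :=
      e.apply_symm_apply _
    rw [h6] at h3
    exact h3) (e.symm D) (by simpa using hD)
  refine ⟨φ.comp (e.symm : A' →ₐ[K] A), h1, fun i x => ?_⟩
  have h3 := h2 i x
  rw [Polynomial.map_map] at h3
  exact h3

theorem sp_base (K : Type) [Field K] : SP K K := by
  intro ι _ f _ _ hroot D hD
  refine ⟨AlgHom.id K K, hD, fun i x => ?_⟩
  have h : ((AlgHom.id K K : K →ₐ[K] K) : K →+* K) = RingHom.id K := rfl
  rw [h, Polynomial.map_id]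
  exact hroot i x

theorem sp_poly {K A : Type} [Field K] [CommRing A] [IsDomain A] [Algebra K A] (hA : HP K A)
    (hS : SP K A) : SP K A[X] := by
  classical
  intro ι _ f hf hs hroot D hD
  cases nonempty_fintype ι
  have hcast : Function.Injective (algebraMap K A) := FaithfulSMul.algebraMap_injective K A
  choose U V r hr hUV using hs
  set E : A[X] := D * ∏ i, r i with hE
  have hE0 : E ≠ 0 := mul_ne_zero hD (Finset.prod_ne_zero_iff.2 fun i _ => hr i)
  have hfin : {t : K | E.eval (algebraMap K A t) = 0}.Finite := by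
    have h1 : (E.rootSet A).Finite := E.rootSet_finite A
    refine (h1.preimage (f := algebraMap K A) hcast.injOn).subset ?_
    intro t ht
    rw [Set.mem_preimage, mem_rootSet]
    exact ⟨hE0, by simpa using ht⟩
  obtain ⟨t, ht, hx⟩ := hA ι f hf (fun i => ⟨U i, V i, r i, hr i, hUV i⟩) hroot hfin.toFinset
  have hEt : E.eval (algebraMap K A t) ≠ 0 := by
    intro h
    exact ht (hfin.mem_toFinset.2 h)
  rw [hE, eval_mul, eval_prod] at hEt
  have hDt : D.eval (algebraMap K A t) ≠ 0 := left_ne_zero_of_mul hEt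
  have hrt : ∀ i, (r i).eval (algebraMap K A t) ≠ 0 := fun i =>
    (Finset.prod_ne_zero_iff.1 (right_ne_zero_of_mul hEt)) i (Finset.mem_univ i)
  obtain ⟨φ, h1, h2⟩ := hS ι (fun i => (f i).map (evalRingHom (algebraMap K A t)))
    (fun i => (hf i).map _) (fun i => by
      refine ⟨(U i).map (evalRingHom (algebraMap K A t)), (V i).map (evalRingHom (algebraMap K A t)),
        (r i).eval (algebraMap K A t), hrt i, ?_⟩
      have h1 := congrArg (Polynomial.map (evalRingHom (algebraMap K A t))) (hUV i)
      rw [Polynomial.map_add, Polynomial.map_mul, Polynomial.map_mul, map_C,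
        ← derivative_map] at h1
      exact h1)
    (fun i x => by rw [map_evalRingHom_eval]; exact hx i x) _ hDt
  let ev : A[X] →ₐ[K] A := (aeval (algebraMap K A t) : A[X] →ₐ[A] A).restrictScalars K
  have hev : (ev : A[X] →+* A) = evalRingHom (algebraMap K A t) := by
    ext x <;> simp [ev]
  refine ⟨φ.comp ev, ?_, fun i x => ?_⟩
  · have h3 : (φ.comp ev) D = φ (D.eval (algebraMap K A t)) := by
      have := congrArg (fun h : A[X] →+* A => φ (h D)) hev
      exact this
    rw [h3]
    exact h1
  · have h3 := h2 i x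
    rw [← hev, Polynomial.map_map] at h3
    exact h3

theorem hp_sp_fin (K : Type) [Field K] [Infinite K] (hK : HP K K) (n : ℕ) :
    HP K (MvPolynomial (Fin n) K) ∧ SP K (MvPolynomial (Fin n) K) := by
  induction n with
  | zero =>
    exact ⟨hK.of_equiv (MvPolynomial.isEmptyAlgEquiv K (Fin 0)).symm,
      (sp_base K).of_equiv (MvPolynomial.isEmptyAlgEquiv K (Fin 0)).symm⟩
  | succ n ih =>
    have e := (MvPolynomial.finSuccEquiv K n)
    exact ⟨(hp_poly ih.1).of_equiv e.symm, (sp_poly ih.1 ih.2).of_equiv e.symm⟩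

theorem sp_mvPolynomial (K : Type) [Field K] [Infinite K] (hK : HP K K) (ι : Type) [Finite ι] :
    SP K (MvPolynomial ι K) := by
  classical
  obtain ⟨n, ⟨e⟩⟩ := Finite.exists_equiv_fin ι
  exact (hp_sp_fin K hK n).2.of_equiv (MvPolynomial.renameEquiv K e.symm)

end Pool.Agent.W200.IG
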