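import Mathlib
import Pool.Agent.W200.IG.HF

/-! # Specialisation of Galois extensions of `K(t_1, …, t_r)` (any characteristic) -/

namespace Pool.Agent.W200.IG

open Polynomial
open scoped Pointwise

/-- Restriction to the separable closure is an isomorphism for a normal extension. -/
theorem restrict_sep_bij (k M : Type*) [Field k] [Field M] [Algebra k M] [Normal k M] :
    Function.Bijective
      (AlgEquiv.restrictNormalHom (F := k) (K₁ := M) (separableClosure k M)) := by
  refine ⟨?_, AlgEquiv.restrictNormalHom_surjective _⟩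
  rw [injective_iff_map_eq_one]
  intro γ hγ
  obtain ⟨q, hq⟩ := ExpChar.exists k
  have hq' : ExpChar M q := expChar_of_injective_algebraMap (algebraMap k M).injective q
  have hq'' : ExpChar (separableClosure k M) q :=
    expChar_of_injective_algebraMap (algebraMap k (separableClosure k M)).injective q
  ext x
  obtain ⟨n, y, hy⟩ := IsPurelyInseparable.pow_mem (separableClosure k M) q x
  have h1 : γ (algebraMap (separableClosure k M) M y) = algebraMap (separableClosure k M) M y := by
    have h2 := AlgEquiv.restrictNormal_commutes γ (separableClosure k M) y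
    have h3 : γ.restrictNormal (separableClosure k M) = 1 := hγ
    rw [h3] at h2
    exact h2.symm
  rw [hy, map_pow] at h1
  exact iterateFrobenius_inj M q n h1

theorem sep_of_eq {A L : Type*} [CommRing A] [Field L] {f U V : A[X]} {r : A}
    (h : U * f + V * derivative f = C r) (φ : A →+* L) (hr' : φ r ≠ 0) :
    (f.map φ).Separable := by
  refine ⟨C (φ r)⁻¹ * U.map φ, C (φ r)⁻¹ * V.map φ, ?_⟩
  have h1 := congrArg (Polynomial.map φ) h
  rw [Polynomial.map_add, Polynomial.map_mul, Polynomial.map_mul, map_C, ← derivative_map] at h1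
  have h2 : C (φ r)⁻¹ * C (φ r) = (1 : L[X]) := by
    rw [← C_mul, inv_mul_cancel₀ hr', C_1]
  linear_combination (C (φ r)⁻¹) * h1 + h2

section abs

variable {K A C G : Type} [Field K] [CommRing A] [CommRing C] [Algebra A C] [Algebra K A]
  [IsDomain A]
  [IsDomain C] [FaithfulSMul A C] [Group G] [Finite G] [MulSemiringAction G C]
  [Algebra.IsInvariant A C G] [SMulCommClass G A C] [FaithfulSMul G C]

theorem spec_aux
    (hθ : ∀ Δ : Subgroup G, Δ ≠ ⊤ →
      ∃ (θ : C) (c : A[X]), (∀ g ∈ Δ, g • θ = θ) ∧ c.Monic ∧ RSep c ∧ (∀ a : A, c.eval a ≠ 0) ∧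
        (c.map (algebraMap A C)).eval θ = 0)
    (hS : SP K A) :
    ∃ (L : Type) (_ : Field L) (_ : Algebra K L), (FiniteDimensional K L ∧ IsGalois K L) ∧
      Nonempty (G ≃* (L ≃ₐ[K] L)) := by
  classical
  cases nonempty_fintype G
  have hinj : Function.Injective (algebraMap A C) := FaithfulSMul.algebraMap_injective A C
  -- the polynomials
  have h1 : ∀ Δ : {Δ : Subgroup G // Δ ≠ ⊤}, ∃ (θ : C) (c : A[X]) (U V : A[X]) (r : A),
      (∀ g ∈ Δ.1, g • θ = θ) ∧ c.Monic ∧ (∀ a : A, c.eval a ≠ 0) ∧
      (c.map (algebraMap A C)).eval θ = 0 ∧ r ≠ 0 ∧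
      U * c + V * derivative c = Polynomial.C r := by
    intro Δ
    obtain ⟨θ, c, h1, h2, ⟨U, V, r, h3, h3'⟩, h4, h5⟩ := hθ Δ.1 Δ.2
    exact ⟨θ, c, U, V, r, h1, h2, h4, h5, h3, h3'⟩
  choose θ c U V r hθ1 hcm hcroot hcθ hr hUV using h1
  let _ : Fintype {Δ : Subgroup G // Δ ≠ ⊤} := Fintype.ofFinite _
  -- the discriminant like element
  have h2 : ∀ g : G, ∃ x : C, g ≠ 1 → g • x - x ≠ 0 := by
    intro g
    by_cases hg : g = 1
    · exact ⟨0, fun h => absurd hg h⟩
    · by_contra hcon
      push Not at hcon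
      apply hg
      apply FaithfulSMul.eq_of_smul_eq_smul (α := C)
      intro x
      rw [one_smul]
      exact sub_eq_zero.1 (hcon x).2
  choose x hx using h2
  let D' : C := ∏ g ∈ Finset.univ.erase (1 : G), (g • x g - x g)
  have hD' : D' ≠ 0 := Finset.prod_ne_zero_iff.2 fun g hg => hx g (Finset.ne_of_mem_erase hg)
  have h3 : ∃ D : A, algebraMap A C D = ∏ h : G, h • D' := by
    apply Algebra.IsInvariant.isInvariant (G := G)
    intro g
    rw [Finset.smul_prod']
    simp only [smul_smul]
    exact Fintype.prod_bijective (fun h => g * h) (Group.mulLeft_bijective g) _ _ fun _ => rfl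
  obtain ⟨D, hD⟩ := h3
  have hD0 : D ≠ 0 := by
    rintro rfl
    rw [map_zero] at hD
    have := Finset.prod_ne_zero_iff.2 (fun (h : G) (_ : h ∈ Finset.univ) =>
      (smul_ne_zero_iff_ne h).2 hD')
    exact this hD.symm
  have hDr0 : D * ∏ Δ, r Δ ≠ 0 :=
    mul_ne_zero hD0 (Finset.prod_ne_zero_iff.2 fun Δ _ => hr Δ)
  obtain ⟨φ, hφDr, hφroot⟩ := hS {Δ : Subgroup G // Δ ≠ ⊤} c hcm
    (fun Δ => ⟨U Δ, V Δ, r Δ, hr Δ, hUV Δ⟩) hcroot _ hDr0
  rw [map_mul, map_prod] at hφDr
  have hφD : φ D ≠ 0 := left_ne_zero_of_mul hφDr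
  have hφr : ∀ Δ, φ (r Δ) ≠ 0 := fun Δ =>
    (Finset.prod_ne_zero_iff.1 (right_ne_zero_of_mul hφDr)) Δ (Finset.mem_univ Δ)
  have hφsurj : Function.Surjective (φ : A →+* K) := by
    intro q
    exact ⟨algebraMap K A q, φ.commutes q⟩
  let P : Ideal A := RingHom.ker (φ : A →+* K)
  have hPmax : P.IsMaximal := RingHom.ker_isMaximal_of_surjective (φ : A →+* K) hφsurj
  have hintegral : Algebra.IsIntegral A C := Algebra.IsInvariant.isIntegral A C G
  obtain ⟨Q, hQmax, hQP⟩ := Ideal.exists_maximal_ideal_liesOver_of_isIntegral (S := C) P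
  let _ : Field (A ⧸ P) := Ideal.Quotient.field P
  let _ : Field (C ⧸ Q) := Ideal.Quotient.field Q
  let e : K ≃+* A ⧸ P := (RingHom.quotientKerEquivOfSurjective hφsurj).symm
  have he : ∀ a : A, e (φ a) = Ideal.Quotient.mk P a := by
    intro a
    rw [RingEquiv.symm_apply_eq]
    rfl
  have hnormal : Normal (A ⧸ P) (C ⧸ Q) := Ideal.Quotient.normal G P Q
  have hsurj := Ideal.Quotient.stabilizerHom_surjective G P Q
  have hφunder : ∀ a : A, algebraMap A C a ∈ Q ↔ φ a = 0 := by
    intro a
    have h4 : P = Q.under A := hQP.over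
    have h5 : φ a = 0 ↔ a ∈ P := Iff.rfl
    rw [h5, h4]
    rfl
  let Es := separableClosure (A ⧸ P) (C ⧸ Q)
  have hbij := restrict_sep_bij (A ⧸ P) (C ⧸ Q)
  -- the stabilizer is everything
  have hstab : MulAction.stabilizer G Q = ⊤ := by
    by_contra hne
    let Δ : {Δ : Subgroup G // Δ ≠ ⊤} := ⟨MulAction.stabilizer G Q, hne⟩
    have hcQ : ((c Δ).map (Ideal.Quotient.mk P)).Separable := by
      refine sep_of_eq (hUV Δ) (Ideal.Quotient.mk P) ?_
      rw [← he]
      exact (_root_.map_ne_zero e).2 (hφr Δ)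
    have hcQθ : aeval (Ideal.Quotient.mk Q (θ Δ)) ((c Δ).map (Ideal.Quotient.mk P)) = 0 := by
      have h6 := congrArg (Ideal.Quotient.mk Q) (hcθ Δ)
      rw [map_zero, ← eval_map_apply, Polynomial.map_map] at h6
      rw [aeval_def, eval₂_eq_eval_map, Polynomial.map_map]
      exact h6
    have hsep : IsSeparable (A ⧸ P) (Ideal.Quotient.mk Q (θ Δ)) :=
      hcQ.of_dvd (minpoly.dvd _ _ hcQθ)
    have hmem : Ideal.Quotient.mk Q (θ Δ) ∈ Es := mem_separableClosure_iff.2 hsep
    have h5 : (⟨Ideal.Quotient.mk Q (θ Δ), hmem⟩ : Es) ∈ Set.range (algebraMap (A ⧸ P) Es) := by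
      rw [InfiniteGalois.mem_range_algebraMap_iff_fixed]
      intro τ'
      obtain ⟨τ, rfl⟩ := hbij.2 τ'
      obtain ⟨g, rfl⟩ := hsurj τ
      apply Subtype.ext
      have h6 := AlgEquiv.restrictNormal_commutes (Ideal.Quotient.stabilizerHom Q P G g) Es
        (⟨Ideal.Quotient.mk Q (θ Δ), hmem⟩ : Es)
      refine h6.trans ?_
      change Ideal.Quotient.mk Q ((g : G) • θ Δ) = _
      rw [hθ1 Δ g g.2]
    obtain ⟨y, hy⟩ := h5
    obtain ⟨q, rfl⟩ := e.surjective y
    obtain ⟨a, rfl⟩ := hφsurj q
    have h6 : Ideal.Quotient.mk Q (algebraMap A C a) = Ideal.Quotient.mk Q (θ Δ) := by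
      have h7 := congrArg (Subtype.val) hy
      have h8 : e ((φ : A →+* K) a) = Ideal.Quotient.mk P a := he a
      rw [h8] at h7
      exact h7
    -- evaluate `c`
    have h7 : algebraMap A C ((c Δ).eval a) ∈ Q := by
      rw [← Ideal.Quotient.eq_zero_iff_mem, ← eval_map_apply, ← eval_map_apply, h6,
        eval_map_apply, hcθ, map_zero]
    rw [hφunder] at h7
    apply hφroot Δ (φ a)
    have h8 : ((c Δ).map (φ : A →+* K)).eval ((φ : A →+* K) a) = (φ : A →+* K) ((c Δ).eval a) :=
      eval_map_apply ..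
    exact h8.trans h7
  -- injectivity
  have hinj' : Function.Injective (Ideal.Quotient.stabilizerHom Q P G) := by
    rw [injective_iff_map_eq_one]
    intro g hg
    by_contra hne
    have hne' : (g : G) ≠ 1 := fun h => hne (Subtype.ext h)
    have h5 : (g : G) • x g - x g ∈ Q := by
      rw [← Ideal.Quotient.eq]
      have h6 := congrArg (fun τ : (C ⧸ Q) ≃ₐ[A ⧸ P] (C ⧸ Q) => τ (Ideal.Quotient.mk Q (x g))) hg
      exact h6
    have h6 : D' ∈ Q := by
      change (∏ g ∈ Finset.univ.erase (1 : G), (g • x g - x g)) ∈ Q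
      rw [← Finset.mul_prod_erase _ _ (Finset.mem_erase.2 ⟨hne', Finset.mem_univ _⟩)]
      exact Q.mul_mem_right _ h5
    have h7 : algebraMap A C D ∈ Q := by
      rw [hD, ← Finset.mul_prod_erase _ _ (Finset.mem_univ (1 : G)), one_smul]
      exact Q.mul_mem_right _ h6
    exact hφD ((hφunder D).1 h7)
  let E1 : MulAction.stabilizer G Q ≃* ((C ⧸ Q) ≃ₐ[A ⧸ P] (C ⧸ Q)) :=
    MulEquiv.ofBijective _ ⟨hinj', hsurj⟩
  let E0 : G ≃* MulAction.stabilizer G Q :=
    Subgroup.topEquiv.symm.trans (MulEquiv.subgroupCongr hstab.symm)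
  let E3 : ((C ⧸ Q) ≃ₐ[A ⧸ P] (C ⧸ Q)) ≃* (Es ≃ₐ[A ⧸ P] Es) := MulEquiv.ofBijective _ hbij
  let algQ : Algebra K Es := ((algebraMap (A ⧸ P) Es).comp (e : K →+* A ⧸ P)).toAlgebra
  have halg : ∀ q : K, algebraMap K Es q = algebraMap (A ⧸ P) Es (e q) := fun q => rfl
  have hgalK : IsGalois K Es := by
    refine IsGalois.of_equiv_equiv (f := e.symm) (g := RingEquiv.refl Es) ?_
    apply RingHom.ext
    intro y
    obtain ⟨q, rfl⟩ := e.surjective y
    change algebraMap K Es (e.symm (e q)) = algebraMap (A ⧸ P) Es (e q)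
    rw [e.symm_apply_apply]
    exact halg q
  let E2 : (Es ≃ₐ[A ⧸ P] Es) ≃* (Es ≃ₐ[K] Es) :=
      { toFun := fun τ => AlgEquiv.ofRingEquiv (f := τ.toRingEquiv) (fun q => by
          rw [halg]; exact τ.commutes _)
        invFun := fun τ => AlgEquiv.ofRingEquiv (f := τ.toRingEquiv) (fun y => by
          obtain ⟨q, rfl⟩ := e.surjective y
          rw [← halg]; exact τ.commutes _)
        left_inv := fun τ => by ext; rfl
        right_inv := fun τ => by ext; rfl
        map_mul' := fun τ τ' => by ext; rfl }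
  let EE : G ≃* (Es ≃ₐ[K] Es) := E0.trans (E1.trans (E3.trans E2))
  have hfinG : Finite (Es ≃ₐ[K] Es) := Finite.of_equiv _ EE.toEquiv
  exact ⟨Es, inferInstance, algQ, ⟨IsGalois.finiteDimensional_of_finite K Es, hgalK⟩, ⟨EE⟩⟩

end abs

section gal

variable {K A : Type} [Field K] [CommRing A] [IsDomain A] [IsIntegrallyClosed A] [Algebra K A]
  {F N : Type} [Field F] [Algebra A F] [IsFractionRing A F] [Field N] [Algebra F N]
  [FiniteDimensional F N] [IsGalois F N]

/-- Specialisation of a Galois extension of the fraction field of `A` to `K`. -/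
theorem galois_spec (hS : SP K A) :
    ∃ (L : Type) (_ : Field L) (_ : Algebra K L), (FiniteDimensional K L ∧ IsGalois K L) ∧
      Nonempty ((N ≃ₐ[F] N) ≃* (L ≃ₐ[K] L)) := by
  classical
  let algAN : Algebra A N := ((algebraMap F N).comp (algebraMap A F)).toAlgebra
  have tower : IsScalarTower A F N := IsScalarTower.of_algebraMap_eq fun _ => rfl
  have hfr : IsFractionRing (integralClosure A N) N :=
    integralClosure.isFractionRing_of_finite_extension F N
  have hfin : Finite ((integralClosure A N) ≃ₐ[A] (integralClosure A N)) :=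
    Finite.of_equiv _ (galRestrict A F N (integralClosure A N)).toEquiv
  have hinv : Algebra.IsInvariant A (integralClosure A N)
      ((integralClosure A N) ≃ₐ[A] (integralClosure A N)) :=
    Algebra.isInvariant_of_isGalois' A F N (integralClosure A N)
  have hAN : Function.Injective (algebraMap A N) := by
    rw [IsScalarTower.algebraMap_eq A F N]
    exact (algebraMap F N).injective.comp (IsFractionRing.injective A F)
  have hAC : Function.Injective (algebraMap A (integralClosure A N)) := by
    intro a b hab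
    apply hAN
    exact congrArg (Subtype.val) hab
  have : FaithfulSMul A (integralClosure A N) :=
    (faithfulSMul_iff_algebraMap_injective A _).2 hAC
  obtain ⟨L, h1, h2, h3, ⟨e⟩⟩ := spec_aux (K := K) (A := A) (C := integralClosure A N)
    (G := (integralClosure A N) ≃ₐ[A] (integralClosure A N)) (by
      intro Δ hΔ
      let ρ := galRestrict A F N (integralClosure A N)
      let Δ' : Subgroup (N ≃ₐ[F] N) := Δ.comap ρ.toMonoidHom
      have hΔ' : Δ' ≠ ⊤ := by
        intro h
        apply hΔ
        rw [eq_top_iff]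
        intro g _
        obtain ⟨τ, rfl⟩ := ρ.surjective g
        have : τ ∈ Δ' := by rw [h]; trivial
        exact this
      have hfix : IntermediateField.fixedField Δ' ≠ ⊥ := by
        intro h
        apply hΔ'
        rw [← IntermediateField.fixingSubgroup_fixedField Δ', h,
          IntermediateField.fixingSubgroup_bot]
      have hex : ∃ x ∈ IntermediateField.fixedField Δ', x ∉ (⊥ : IntermediateField F N) := by
        by_contra hcon
        push Not at hcon
        exact hfix (le_antisymm hcon bot_le)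
      obtain ⟨x, hx, hx'⟩ := hex
      have hxalg : IsAlgebraic A x := by
        rw [IsFractionRing.isAlgebraic_iff A F N]
        exact Algebra.IsAlgebraic.isAlgebraic x
      obtain ⟨a, ha, hint⟩ := hxalg.exists_integral_multiple
      have hmin := minpoly.isIntegrallyClosed_eq_field_fractions F N hint
      rw [Algebra.algebraMap_self_apply] at hmin
      have ha' : algebraMap A F a ≠ 0 := by
        intro h
        apply ha
        exact IsFractionRing.injective A F (by rw [h, map_zero])
      have ha'' : algebraMap A N a ≠ 0 := by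
        rw [IsScalarTower.algebraMap_apply A F N]
        exact (_root_.map_ne_zero (algebraMap F N)).2 ha'
      refine ⟨⟨a • x, hint⟩, minpoly A (a • x), ?_, minpoly.monic hint, ?_, ?_, ?_⟩
      · intro g hg
        obtain ⟨τ, rfl⟩ := ρ.surjective g
        apply Subtype.ext
        have h1 : algebraMap (integralClosure A N) N (galRestrict A F N (integralClosure A N) τ ⟨a • x, hint⟩) =
            τ (algebraMap (integralClosure A N) N ⟨a • x, hint⟩) :=
          algebraMap_galRestrict_apply A τ _
        have h2 : τ x = x := hx ⟨τ, hg⟩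
        have h3 : τ (a • x) = a • x := by
          rw [Algebra.smul_def, map_mul, h2, IsScalarTower.algebraMap_apply A F N,
            AlgEquiv.commutes]
        exact h1.trans h3
      · apply rsep_of_sep (algebraMap A F) (IsFractionRing.injective A F)
        rw [← hmin]
        exact IsGalois.separable F (a • x)
      · intro b hb
        apply hx'
        have h1 : (minpoly F (a • x)).IsRoot (algebraMap A F b) := by
          rw [hmin, IsRoot.def, eval_map_apply, hb, map_zero]
        have hintF : IsIntegral F (a • x) := Algebra.IsIntegral.isIntegral _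
        have h2 := degree_eq_one_of_irreducible_of_root (minpoly.irreducible hintF) h1
        obtain ⟨y, hy⟩ := minpoly.mem_range_of_degree_eq_one F (a • x) h2
        rw [IntermediateField.mem_bot]
        refine ⟨y / algebraMap A F a, ?_⟩
        rw [map_div₀, ← IsScalarTower.algebraMap_apply]
        have hy' : algebraMap F N y = a • x := hy
        rw [hy', Algebra.smul_def, mul_div_cancel_left₀ _ ha'']
      · have hinjCN : Function.Injective (algebraMap (integralClosure A N) N) :=
          Subtype.val_injective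
        apply hinjCN
        rw [map_zero, ← eval_map_apply, Polynomial.map_map]
        have h1 := minpoly.aeval A (a • x)
        rw [aeval_def, eval₂_eq_eval_map] at h1
        exact h1) hS
  exact ⟨L, h1, h2, h3, ⟨(galRestrict A F N (integralClosure A N)).trans e⟩⟩

end gal

end Pool.Agent.W200.IG
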