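import Mathlib
import Pool.Agent.W200.IG.GeoA

/-!
The generic Galois group contains the kernel of `G ≀ S_n → G^ab`, arbitrary characteristic.
-/

set_option autoImplicit false

namespace Pool.Agent.W200.IG

open MvPolynomial
open Pool.Agent.H391R2 (PhiP fam exists_field Wr)
open Pool.Agent.H391R2.T4 (orb tv SolP YData Sol bcy aeval_tv_bcy eq_on_adjoin field_le
  exists_restrict main_abs bcYData)

set_option linter.unusedSectionVars false

section geob

variable {k : Type} [Field k] {G : Type} [Group G] [Fintype G]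
variable (y : MvPolynomial G k) {J : ℕ}

/-- The images of the variables form a transcendence basis. -/
theorem basis_vars {V F N : Type} [Field F] [Field N]
    [Algebra k F] [Algebra (MvPolynomial V k) F] [IsScalarTower k (MvPolynomial V k) F]
    [IsFractionRing (MvPolynomial V k) F] [Algebra F N] [Algebra.IsAlgebraic F N]
    [Algebra k N] [IsScalarTower k F N] :
    IsTranscendenceBasis k (fun v : V => algebraMap F N (algebraMap (MvPolynomial V k) F (X v))) := by
  classical
  let ξ : V → N := fun v => algebraMap F N (algebraMap (MvPolynomial V k) F (X v))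
  have hξ : AlgebraicIndependent k ξ := by
    have h1 : AlgebraicIndependent k (X : V → MvPolynomial V k) :=
      algebraicIndependent_X _ _
    have h2 := h1.map' (f := IsScalarTower.toAlgHom k (MvPolynomial V k) F)
      (IsFractionRing.injective (MvPolynomial V k) _)
    exact h2.map' (f := IsScalarTower.toAlgHom k F N) (algebraMap F N).injective
  change IsTranscendenceBasis k ξ
  rw [hξ.isTranscendenceBasis_iff_isAlgebraic]
  refine ⟨fun z => ?_⟩
  have h1 : IsAlgebraic F z := Algebra.IsAlgebraic.isAlgebraic z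
  let algN : Algebra (MvPolynomial V k) N :=
    ((algebraMap F N).comp (algebraMap (MvPolynomial V k) F)).toAlgebra
  have hTN : IsScalarTower (MvPolynomial V k) F N := IsScalarTower.of_algebraMap_eq fun x => rfl
  have h2 : IsAlgebraic (MvPolynomial V k) z :=
    (IsFractionRing.isAlgebraic_iff (MvPolynomial V k) F N).2 h1
  obtain ⟨p, hp, hpz⟩ := h2
  have hmem : ∀ q : MvPolynomial V k, aeval ξ q ∈ Algebra.adjoin k (Set.range ξ) := by
    intro q
    rw [Algebra.adjoin_range_eq_range_aeval]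
    exact ⟨q, rfl⟩
  let ψ : MvPolynomial V k →+* Algebra.adjoin k (Set.range ξ) :=
    ((aeval ξ : MvPolynomial V k →ₐ[k] N) : MvPolynomial V k →+* N).codRestrict _ hmem
  have hψ : Function.Injective ψ := by
    intro a b hab
    exact algebraicIndependent_iff_injective_aeval.1 hξ (congrArg Subtype.val hab)
  refine ⟨p.map ψ, (Polynomial.map_ne_zero_iff hψ).2 hp, ?_⟩
  rw [Polynomial.aeval_def, Polynomial.eval₂_map]
  rw [Polynomial.aeval_def] at hpz
  rw [← hpz]
  congr 1
  apply MvPolynomial.ringHom_ext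
  · intro c
    change aeval ξ (C c) = algebraMap F N (algebraMap (MvPolynomial V k) F (C c))
    rw [aeval_C, IsScalarTower.algebraMap_apply k F N,
      IsScalarTower.algebraMap_apply k (MvPolynomial V k) F]
    rfl
  · intro v
    change aeval ξ (X v) = algebraMap F N (algebraMap (MvPolynomial V k) F (X v))
    rw [aeval_X]

open Classical in
/-- The abstract geometric theorem. -/
theorem geo2 [YData y] (d : Dt k G J) (h : GD y d)
    (Ψ : Polynomial (MvPolynomial (Fin (Fintype.card G)) k)) (hm : Ψ.Monic)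
    (hΨ : Ψ.map ((aeval fun i : Fin (Fintype.card G) => esymm G k (i + 1) :
      MvPolynomial (Fin (Fintype.card G)) k →ₐ[k] MvPolynomial G k) :
      MvPolynomial (Fin (Fintype.card G)) k →+* MvPolynomial G k) =
      ∏ q ∈ orb y, (Polynomial.X - Polynomial.C q))
    (T : ℕ) (hT : ∀ e, (Ψ.coeff e).totalDegree ≤ T)
    (hsep : (Polynomial.C d.c * d.R * ∏ q ∈ (orb y).erase y,
      (Polynomial.C d.c * (Polynomial.X ^ 2 * d.R) -
      Polynomial.C (aeval d.l q - aeval d.l y))).Separable)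
    (M : ℕ) (hJM : J + 1 < M) (hB : T * (J + 1) < M) (hM : 2 + d.R.natDegree = M) (n : ℕ)
    (hn : 3 ≤ n) (hdeg : Ψ.natDegree * M = n + J)
    {F N : Type} [Field F] [Field N] [Algebra k F]
    [Algebra (MvPolynomial
      (Unit ⊕ (Option (Fin (Fintype.card G)) ⊕ Option (Fin (Fintype.card G)))) k) F]
    [IsScalarTower k (MvPolynomial
      (Unit ⊕ (Option (Fin (Fintype.card G)) ⊕ Option (Fin (Fintype.card G)))) k) F]
    [IsFractionRing (MvPolynomial
      (Unit ⊕ (Option (Fin (Fintype.card G)) ⊕ Option (Fin (Fintype.card G)))) k) F]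
    [Algebra F N] [Algebra k N] [IsScalarTower k F N] [IsAlgClosed N] [Algebra.IsAlgebraic F N] :
    ∃ (r : Fin n → N) (vv : Fin n → G → N) (π : (N ≃ₐ[F] N) →* Wr G n),
      (∀ x : Wr G n, ∏ i, Abelianization.of (x.left i) = 1 → x ∈ π.range) ∧
      ∀ γ, (∀ i, γ (r i) = r i) → (∀ i g, γ (vv i g) = vv i g) → π γ = 1 := by
  let ξ : Unit ⊕ (Option (Fin (Fintype.card G)) ⊕ Option (Fin (Fintype.card G))) → N :=
    fun v => algebraMap F N (algebraMap (MvPolynomial _ k) F (X v))
  have hξ : IsTranscendenceBasis k ξ := basis_vars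
  obtain ⟨r, vv, hr, hrw, hsol, hall, Ω, i1, i2, j, τ, hτξ, c₁, c₂, hcc, hτ1, hτ2, hτ3, hτ4⟩ :=
    geo1 y d h Ψ hm hΨ T hT hsep M hJM hB hM n hn hdeg ξ hξ
  obtain ⟨θ, hθdef⟩ : ∃ θ : Option (Fin (Fintype.card G)) ⊕ Option (Fin (Fintype.card G)) → N,
    θ = fun i => ξ (Sum.inr i) := ⟨_, rfl⟩
  have hjinj : Function.Injective j := j.toRingHom.injective
  -- the field of the parameter
  obtain ⟨k₁, hk₁def⟩ : ∃ K₁ : IntermediateField k N, K₁ = IntermediateField.adjoin k
      (Set.range (fun _ : Unit => ξ (Sum.inl ()))) := ⟨_, rfl⟩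
  have hmemt : ξ (Sum.inl ()) ∈ k₁ := by
    rw [hk₁def]
    exact IntermediateField.subset_adjoin _ _ ⟨(), rfl⟩
  have hθ : AlgebraicIndependent k₁ θ := by
    rw [hk₁def, hθdef]
    rw [IntermediateField.algebraicIndependent_adjoin_iff]
    let e : (Option (Fin (Fintype.card G)) ⊕ Option (Fin (Fintype.card G))) ⊕ Unit →
        Unit ⊕ (Option (Fin (Fintype.card G)) ⊕ Option (Fin (Fintype.card G))) := Sum.swap
    have he : Function.Injective e := Sum.swap_leftInverse.injective
    have h1 := hξ.1.comp e he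
    have h2 : ξ ∘ e = Sum.elim (fun w => ξ (Sum.inr w)) (fun _ : Unit => ξ (Sum.inl ())) := by
      funext v
      rcases v with a | a <;> rfl
    rw [h2] at h1
    exact (AlgebraicIndependent.sumElim_iff.1 h1).2
  let t₁ : k₁ := ⟨_, hmemt⟩
  have ht₁ : algebraMap k₁ N t₁ = ξ (Sum.inl ()) := rfl
  obtain ⟨F₁, iF1, iF2, iF3, iF4, iF5, φ, hφ⟩ := exists_field hθ
  let _ : Algebra F₁ N := φ.toRingHom.toAlgebra
  have hTF : IsScalarTower k₁ F₁ N := IsScalarTower.of_algebraMap_eq fun x => (φ.commutes x).symm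
  have hθF : ∀ i, θ i = algebraMap F₁ N (algebraMap (MvPolynomial
      (Option (Fin (Fintype.card G)) ⊕ Option (Fin (Fintype.card G))) k₁) F₁
      (MvPolynomial.X i)) := by
    intro i
    change _ = φ _
    rw [hφ, aeval_X]
  let _ : Algebra k F₁ := ((algebraMap k₁ F₁).comp (algebraMap k k₁)).toAlgebra
  have hTkF : IsScalarTower k k₁ F₁ := IsScalarTower.of_algebraMap_eq fun x => rfl
  have hTkN : IsScalarTower k F₁ N := IsScalarTower.of_algebraMap_eq fun x => by
    rw [IsScalarTower.algebraMap_apply k k₁ N, IsScalarTower.algebraMap_apply k₁ F₁ N]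
    rfl
  -- N is algebraic over F₁
  have halg : Algebra.IsAlgebraic F₁ N := by
    refine Pool.Agent.H391R2.T4.alg_of_range ξ hξ ?_
    rintro (u | i)
    · exact ⟨algebraMap k₁ F₁ t₁, by
        rw [← IsScalarTower.algebraMap_apply k₁ F₁ N, ht₁]⟩
    · exact ⟨_, by rw [← hθF, hθdef]⟩
  have hcl : IsAlgClosure F₁ N := ⟨inferInstance, halg⟩
  have hnorm : Normal F₁ N := IsAlgClosure.normal F₁ N
  -- equality on F₁
  have heqF : ∀ {Ω' : Type} [Field Ω'] [Algebra k Ω'] (f g : N →ₐ[k] Ω'),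
      (∀ v, f (ξ v) = g (ξ v)) →
      ∀ x : F₁, f (algebraMap F₁ N x) = g (algebraMap F₁ N x) := by
    intro Ω' _ _ f g h2 x
    have h3 : ∀ x : k₁, f (algebraMap k₁ N x) = g (algebraMap k₁ N x) := by
      intro x
      have hx : (x : N) ∈ IntermediateField.adjoin k
          (Set.range (fun _ : Unit => ξ (Sum.inl ()))) := by
        rw [← hk₁def]; exact x.2
      refine eq_on_adjoin f g _ ?_ _ hx
      rintro _ ⟨v, rfl⟩
      exact h2 _
    let _ : Algebra k₁ Ω' := ((f : N →+* Ω').comp (algebraMap k₁ N)).toAlgebra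
    let f' : N →ₐ[k₁] Ω' := { (f : N →+* Ω') with commutes' := fun c => rfl }
    let g' : N →ₐ[k₁] Ω' := { (g : N →+* Ω') with commutes' := fun c => (h3 c).symm }
    have h4 := eq_on_adjoin f' g' (Set.range θ) (by
      rintro _ ⟨i, rfl⟩
      rw [hθdef]
      exact h2 _) _ (field_le θ hθF x)
    exact h4
  -- equality on F
  have heqF0 : ∀ (f g : N →ₐ[k] N), (∀ v, f (ξ v) = g (ξ v)) →
      ∀ x : F, f (algebraMap F N x) = g (algebraMap F N x) := by
    intro f g h2 x
    exact eq_on_adjoin f g (Set.range ξ) (by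
      rintro _ ⟨i, rfl⟩
      exact h2 _) _ (field_le ξ (fun i => rfl) x)
  -- the transposition
  obtain ⟨τN, hτN⟩ := exists_restrict (F := F₁) (N := N) (j : N →+* Ω) (τ : Ω ≃+* Ω) (fun x => by
    refine heqF ((τ : Ω →ₐ[k] Ω).comp j) j (fun v => ?_) x
    exact hτξ _)
  have hτN' : ∀ x, j (τN x) = τ (j x) := hτN
  -- solutions
  have hfam : ∀ i, fam G (base1 y d t₁) (d.w.map (algebraMap k k₁)) θ i = PX y d ξ i := by
    intro i
    rw [fam_PP y d t₁ θ i, ht₁, hθdef]
    rfl
  have hw1 : ∀ s : N, Polynomial.aeval s (d.w.map (algebraMap k k₁)) = Polynomial.aeval s d.w :=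
    fun s => Polynomial.aeval_map_algebraMap _ _ _
  have hSolP : ∀ s v, Sol (bcy k₁ y) (base1 y d t₁)
      (d.w.map (algebraMap k k₁)) θ s v ↔ Polynomial.aeval s d.w ≠ 0 ∧ SolP y (PX y d ξ) s v := by
    intro s v
    unfold Sol SolP
    simp only [hfam, hw1, aeval_tv_bcy]
  obtain ⟨π, hπ1, hπ2⟩ := main_abs (bcy k₁ y) (base1 y d t₁)
    (d.w.map (algebraMap k k₁)) θ hθ hθF n hn r hr vv
    (fun i => (hSolP _ _).2 ⟨hrw i, hsol i⟩)
    (fun s v hsv => hall s v ((hSolP _ _).1 hsv).2 ((hSolP _ _).1 hsv).1) τN c₁ c₂ hcc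
    (hjinj (by rw [hτN', hτ1])) (hjinj (by rw [hτN', hτ2]))
    (fun g => hjinj (by rw [hτN', hτN', hτ3]))
    (fun i hi1 hi2 => ⟨hjinj (by rw [hτN', (hτ4 i hi1 hi2).1]),
      fun g => hjinj (by rw [hτN', (hτ4 i hi1 hi2).2])⟩)
  have hvind : ∀ i, Function.Injective (vv i) := by
    intro i
    have : Nontrivial (Fin n) := Fin.nontrivial_iff_two_le.2 (by omega)
    obtain ⟨i', hi'⟩ := exists_ne i
    exact (Pool.Agent.H391R2.T4.indep_v (bcy k₁ y) _ _ θ hθ (r i) (vv i) (r i') (vv i')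
      ((hSolP _ _).2 ⟨hrw i, hsol i⟩) ((hSolP _ _).2 ⟨hrw i', hsol i'⟩)
      (fun h => hi' (hr h).symm)).injective
  -- change of the base field
  have hcomm : ∀ (γ : N ≃ₐ[F] N) (x : F₁), γ (algebraMap F₁ N x) = algebraMap F₁ N x := by
    intro γ x
    refine heqF ((γ : N →ₐ[F] N).restrictScalars k) (AlgHom.id k N) (fun v => ?_) x
    exact γ.commutes _
  have hcomm' : ∀ (γ : N ≃ₐ[F₁] N) (x : F), γ (algebraMap F N x) = algebraMap F N x := by
    intro γ x
    refine heqF0 ((γ : N →ₐ[F₁] N).restrictScalars k) (AlgHom.id k N) (fun v => ?_) x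
    rcases v with u | i
    · have h1 : ξ (Sum.inl u) = algebraMap F₁ N (algebraMap k₁ F₁ t₁) := by
        rw [← IsScalarTower.algebraMap_apply k₁ F₁ N, ht₁]
      change γ (ξ (Sum.inl u)) = ξ (Sum.inl u)
      rw [h1, γ.commutes]
    · have h1 : ξ (Sum.inr i) = θ i := by rw [hθdef]
      change γ (ξ (Sum.inr i)) = ξ (Sum.inr i)
      rw [h1, hθF, γ.commutes]
  let Φ : (N ≃ₐ[F] N) →* (N ≃ₐ[F₁] N) :=
    { toFun := fun γ => AlgEquiv.ofRingEquiv (f := γ.toRingEquiv) (hcomm γ)
      map_one' := by ext; rfl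
      map_mul' := fun a b => by ext; rfl }
  have hΦ : ∀ γ x, Φ γ x = γ x := fun γ x => rfl
  refine ⟨r, vv, π.comp Φ, ?_, ?_⟩
  · intro x hx
    obtain ⟨γ, hγ⟩ := hπ1 x hx
    refine ⟨AlgEquiv.ofRingEquiv (f := γ.toRingEquiv) (hcomm' γ), ?_⟩
    rw [MonoidHom.comp_apply, ← hγ]
    congr 1
  · intro γ h1 h2
    rw [MonoidHom.comp_apply]
    have h3 := hπ2 (Φ γ)
    have hright : (π (Φ γ)).right = 1 := by
      apply Equiv.ext
      intro i
      have h4 := (h3 i).1
      rw [hΦ, h1] at h4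
      exact (hr h4).symm
    apply SemidirectProduct.ext
    · funext i
      have h4 := (h3 i).2 1
      rw [hΦ, h2, hright] at h4
      have h5 := hvind _ h4
      simpa using h5.symm
    · exact hright

end geob

end Pool.Agent.W200.IG
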