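import Mathlib
import Pool.Agent.W200.IG.GeoB

/-!
Existence of the numerical data over an infinite field of arbitrary characteristic.
-/

set_option autoImplicit false

namespace Pool.Agent.W200.IG

open MvPolynomial
open Pool.Agent.H391R2.T4 (orb mem_orb y_mem_orb)

set_option linter.unusedSectionVars false

theorem cop_unit {R : Type} [CommRing R] {a b : R} (h : IsUnit a) : IsCoprime a b := by
  obtain ⟨c, hc⟩ := h.exists_left_inv
  exact ⟨c, 0, by rw [hc, zero_mul, add_zero]⟩

open Classical in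
theorem sep_c {k : Type} [Field k] [IsAlgClosed k] {ι : Type} (s : Finset ι)
    (δ : ι → k) (hδ0 : ∀ q ∈ s, δ q ≠ 0) (hδ : ∀ q ∈ s, ∀ q' ∈ s, q ≠ q' → δ q ≠ δ q')
    (R : Polynomial k) (hR : R.Separable) (b : k) (hb : b ≠ 0) (hRb : R.eval b = 0) :
    ∃ B : Set k, B.Finite ∧ ∀ c, c ≠ 0 → c ∉ B →
      (Polynomial.C c * R * ∏ q ∈ s, (Polynomial.C c * (Polynomial.X ^ 2 * R) -
        Polynomial.C (δ q))).Separable := by
  set g : Polynomial k := Polynomial.X ^ 2 * R with hg
  have hg' : g.derivative ≠ 0 := by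
    intro h
    have h1 := congrArg (Polynomial.eval b) h
    rw [hg, Polynomial.derivative_mul] at h1
    simp only [Polynomial.eval_add, Polynomial.eval_mul, hRb, mul_zero, zero_add,
      Polynomial.eval_pow, Polynomial.eval_X, Polynomial.eval_zero] at h1
    have h2 : R.derivative.eval b ≠ 0 := by
      have h3 := hR.eval₂_derivative_ne_zero (RingHom.id k) (x := b) (by
        rw [Polynomial.eval₂_id]; exact hRb)
      rwa [Polynomial.eval₂_id] at h3
    exact mul_ne_zero (pow_ne_zero 2 hb) h2 h1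
  refine ⟨⋃ q ∈ s, (fun x => δ q / g.eval x) '' (g.derivative.roots.toFinset : Set k),
    Set.Finite.biUnion s.finite_toSet fun q _ => (Finset.finite_toSet _).image _, ?_⟩
  intro c hc hcB
  have hc' : IsUnit (Polynomial.C c) := Polynomial.isUnit_C.2 (isUnit_iff_ne_zero.2 hc)
  refine Polynomial.Separable.mul (Polynomial.Separable.mul ?_ hR ?_) ?_ ?_
  · rw [Polynomial.separable_C]
    exact isUnit_iff_ne_zero.2 hc
  · exact cop_unit hc'
  · refine Polynomial.separable_prod' ?_ ?_
    · intro q hq q' hq' hne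
      have h1 : δ q' - δ q ≠ 0 := sub_ne_zero.2 (hδ q hq q' hq' hne).symm
      refine ⟨Polynomial.C (δ q' - δ q)⁻¹, -Polynomial.C (δ q' - δ q)⁻¹, ?_⟩
      have h2 : Polynomial.C (δ q' - δ q)⁻¹ * (Polynomial.C (δ q') - Polynomial.C (δ q)) = 1 := by
        rw [← Polynomial.C_sub, ← Polynomial.C_mul, inv_mul_cancel₀ h1, Polynomial.C_1]
      linear_combination h2
    · intro q hq
      rw [Polynomial.separable_def,
        Polynomial.isCoprime_iff_aeval_ne_zero_of_isAlgClosed k k]
      intro a
      by_contra hne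
      push Not at hne
      obtain ⟨h1, h2⟩ := hne
      simp only [Polynomial.coe_aeval_eq_eval, Polynomial.derivative_sub, Polynomial.derivative_mul,
        Polynomial.derivative_C, zero_mul, zero_add, sub_zero, Polynomial.eval_sub,
        Polynomial.eval_mul, Polynomial.eval_C] at h1 h2
      have h3 : g.derivative.eval a = 0 := (mul_eq_zero.1 h2).resolve_left hc
      have h4 : g.eval a ≠ 0 := by
        intro h5
        rw [h5, mul_zero, zero_sub, neg_eq_zero] at h1
        exact hδ0 q hq h1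
      apply hcB
      simp only [Set.mem_iUnion, Set.mem_image, SetLike.mem_coe, Multiset.mem_toFinset]
      refine ⟨q, hq, a, ?_, ?_⟩
      · rw [Polynomial.mem_roots hg']
        exact h3
      · rw [div_eq_iff h4]
        linear_combination -h1
  · refine IsCoprime.prod_right fun q hq => ?_
    refine IsCoprime.mul_left (cop_unit hc') ?_
    have h1 := hδ0 q hq
    refine ⟨Polynomial.C (δ q)⁻¹ * Polynomial.C c * Polynomial.X ^ 2,
      -Polynomial.C (δ q)⁻¹, ?_⟩
    have h2 : Polynomial.C (δ q)⁻¹ * Polynomial.C (δ q) = 1 := by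
      rw [← Polynomial.C_mul, inv_mul_cancel₀ h1, Polynomial.C_1]
    rw [hg]
    linear_combination h2

theorem numbers (D T : ℕ) (hD : 0 < D) : ∃ n₀ : ℕ, ∀ n ≥ n₀, 3 ≤ n ∧ ∃ j M : ℕ,
    j + 1 < M ∧ 3 ≤ M ∧ T * (j + 1) < M ∧ D * M = n + j := by
  refine ⟨3 + D * ((T + 1) * (D + 1) + 2), fun n hn => ⟨by omega, ?_⟩⟩
  obtain ⟨j, M, hj, hM⟩ : ∃ j M, j < D ∧ D * M = n + j := by
    have h1 := Nat.div_add_mod n D
    have h2 := Nat.mod_lt n hD
    by_cases h0 : n % D = 0
    · exact ⟨0, n / D, hD, by omega⟩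
    · refine ⟨D - n % D, n / D + 1, by omega, ?_⟩
      rw [mul_add, mul_one]
      omega
  have h1 : D * ((T + 1) * (D + 1) + 2) < D * M := by omega
  have h2 : (T + 1) * (D + 1) + 2 < M := Nat.lt_of_mul_lt_mul_left h1
  refine ⟨j, M, ?_, ?_, ?_, hM⟩
  · nlinarith
  · nlinarith
  · nlinarith

open Classical in
/-- Existence of the data. -/
theorem exists_data {k : Type} [Field k] [Infinite k] {G : Type} [Group G] [Fintype G]
    (y : MvPolynomial G k) (J M : ℕ) (hJ : J + 1 < M) (hM : 3 ≤ M) :
    ∃ d : Dt k G J, GD y d ∧ 2 + d.R.natDegree = M ∧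
      (Polynomial.C d.c * d.R * ∏ q ∈ (orb y).erase y,
        (Polynomial.C d.c * (Polynomial.X ^ 2 * d.R) -
        Polynomial.C (aeval d.l q - aeval d.l y))).Separable := by
  -- the point `l`
  obtain ⟨l, hl1, hl2⟩ : ∃ l : G → k, Function.Injective l ∧
      ∀ q ∈ orb y, ∀ q' ∈ orb y, q ≠ q' → aeval l q ≠ aeval l q' := by
    let P : MvPolynomial G k :=
      (∏ p ∈ (Finset.univ : Finset (G × G)).filter (fun p => p.1 ≠ p.2), (X p.1 - X p.2)) *
      ∏ p ∈ ((orb y) ×ˢ (orb y)).filter (fun p => p.1 ≠ p.2), (p.1 - p.2)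
    have hP : P ≠ 0 := by
      refine mul_ne_zero (Finset.prod_ne_zero_iff.2 fun p hp => ?_)
        (Finset.prod_ne_zero_iff.2 fun p hp => ?_)
      · rw [sub_ne_zero]
        intro h
        exact (Finset.mem_filter.1 hp).2 (X_injective h)
      · exact sub_ne_zero.2 (Finset.mem_filter.1 hp).2
    obtain ⟨l, hl⟩ : ∃ l : G → k, aeval l P ≠ 0 := by
      by_contra hne
      push Not at hne
      apply hP
      apply MvPolynomial.funext
      intro x
      rw [map_zero]
      exact hne x
    simp only [P, map_mul, map_prod] at hl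
    obtain ⟨h1, h2⟩ := mul_ne_zero_iff.1 hl
    rw [Finset.prod_ne_zero_iff] at h1 h2
    refine ⟨l, ?_, ?_⟩
    · intro a b hab
      by_contra hne
      apply h1 (a, b) (Finset.mem_filter.2 ⟨Finset.mem_univ _, hne⟩)
      rw [map_sub, aeval_X, aeval_X, hab, sub_self]
    · intro q hq q' hq' hne h
      apply h2 (q, q') (Finset.mem_filter.2 ⟨Finset.mem_product.2 ⟨hq, hq'⟩, hne⟩)
      rw [map_sub, h, sub_self]
  -- the roots of `R`
  obtain ⟨m, rfl⟩ : ∃ m, M = m + 2 := ⟨M - 2, by omega⟩
  have hinf : Infinite {x : k // x ≠ 0} := by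
    have h1 : ({x : k | x ≠ 0}).Infinite := by
      have h2 : ({x : k | x ≠ 0}) = ({0} : Set k)ᶜ := by ext; simp
      rw [h2]
      exact (Set.finite_singleton 0).infinite_compl
    exact h1.to_subtype
  let em := Infinite.natEmbedding {x : k // x ≠ 0}
  let ρ : Fin m → k := fun i => (em i).1
  have hρ : Function.Injective ρ := by
    intro a b hab
    exact Fin.ext (em.injective (Subtype.ext hab))
  have hρ0 : ∀ i, ρ i ≠ 0 := fun i => (em i).2
  let R : Polynomial k := ∏ i, (Polynomial.X - Polynomial.C (ρ i))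
  have hRm : R.Monic := Polynomial.monic_prod_of_monic _ _ fun i _ => Polynomial.monic_X_sub_C _
  have hRd : R.natDegree = m := by
    rw [Polynomial.natDegree_prod_of_monic _ _ fun i _ => Polynomial.monic_X_sub_C _]
    simp
  have hRs : R.Separable := Polynomial.separable_prod_X_sub_C_iff.2 hρ
  have hRr : ∀ i, R.eval (ρ i) = 0 := by
    intro i
    simp only [R]
    rw [Polynomial.eval_prod]
    exact Finset.prod_eq_zero (Finset.mem_univ i) (by simp)
  have hR0 : R.eval 0 ≠ 0 := by
    simp only [R]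
    rw [Polynomial.eval_prod]
    exact Finset.prod_ne_zero_iff.2 fun i _ => by
      rw [Polynomial.eval_sub, Polynomial.eval_X, Polynomial.eval_C, zero_sub]
      exact neg_ne_zero.2 (hρ0 i)
  -- the constant `c`
  let K := AlgebraicClosure k
  let i0 : Fin m := ⟨0, by omega⟩
  obtain ⟨B, hB, hBc⟩ := sep_c (k := K) ((orb y).erase y)
    (fun q => algebraMap k K (aeval l q - aeval l y)) (by
      intro q hq
      rw [ne_eq, _root_.map_eq_zero, sub_eq_zero]
      exact hl2 q (Finset.mem_of_mem_erase hq) y (y_mem_orb y) (Finset.ne_of_mem_erase hq)) (by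
      intro q hq q' hq' hne h
      have h1 := (algebraMap k K).injective h
      exact hl2 q (Finset.mem_of_mem_erase hq) q' (Finset.mem_of_mem_erase hq') hne
        (sub_left_injective h1)) (R.map (algebraMap k K)) hRs.map (algebraMap k K (ρ i0))
      ((_root_.map_ne_zero _).2 (hρ0 i0)) (by
        rw [Polynomial.eval_map_apply, hRr, map_zero])
  obtain ⟨c, hc0, hcB⟩ : ∃ c : k, c ≠ 0 ∧ algebraMap k K c ∉ B := by
    have h1 : (insert (0 : K) B).Finite := hB.insert 0
    have h2 : (Set.range (algebraMap k K)).Infinite :=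
      Set.infinite_range_of_injective (algebraMap k K).injective
    obtain ⟨_, ⟨c, rfl⟩, hc⟩ := h2.exists_notMem_finite h1
    rw [Set.mem_insert_iff, not_or] at hc
    exact ⟨c, fun h => hc.1 (by rw [h, map_zero]), hc.2⟩
  let d : Dt k G J :=
    { l := l, c := c, R := R, nd := fun a => ρ (Fin.castLE (by omega) a) }
  refine ⟨d, ⟨hl1, ?_, hc0, hRm, hR0, ?_, fun a => hRr _⟩, ?_, ?_⟩
  · intro q hq hne
    exact sub_ne_zero.2 (hl2 q hq y (y_mem_orb y) hne)
  · intro a b hab
    exact Fin.castLE_injective _ (hρ hab)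
  · change 2 + R.natDegree = m + 2
    rw [hRd, add_comm]
  · have h1 := hBc (algebraMap k K c) ((_root_.map_ne_zero _).2 hc0) hcB
    rw [← Polynomial.separable_map (algebraMap k K)]
    simp only [Polynomial.map_mul, Polynomial.map_prod, Polynomial.map_sub, Polynomial.map_pow,
      Polynomial.map_X, Polynomial.map_C]
    exact h1

end Pool.Agent.W200.IG
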