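import Mathlib
import Pool.Agent.W200.IG.Dat
import Pool.Agent.W200.IG.HG

/-!
Generic realisation over `k(t_1, …, t_r)` of a subgroup of `G ≀ S_n` containing the kernel of the
map to the abelianisation of `G`; specialisation to a Hilbertian field of arbitrary characteristic.
-/

set_option autoImplicit false

namespace Pool.Agent.W200.IG

open MvPolynomial
open Pool.Agent.H391R2 (Wr)
open Pool.Agent.H391R2.T4 (orb y_mem_orb YData)

set_option linter.unusedSectionVars false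

/-- A homomorphism from the automorphism group of a normal extension which is trivial on the
automorphisms fixing finitely many elements comes from a finite Galois extension. -/
theorem finite_descent {F N : Type} [Field F] [Field N] [Algebra F N] [Normal F N]
    {W : Type} [Group W] (π : (N ≃ₐ[F] N) →* W) (S : Set N) (hSf : S.Finite)
    (hS : ∀ γ, (∀ s ∈ S, γ s = s) → π γ = 1) :
    ∃ (E : Type) (_ : Field E) (_ : Algebra F E), (FiniteDimensional F E ∧ IsGalois F E) ∧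
      Nonempty (π.range ≃* (E ≃ₐ[F] E)) := by
  classical
  let Es := separableClosure F N
  let e : (N ≃ₐ[F] N) ≃* (Es ≃ₐ[F] Es) := MulEquiv.ofBijective _ (restrict_sep_bij F N)
  have he : ∀ (γ : N ≃ₐ[F] N) (x : Es), ((e γ x : Es) : N) = γ (x : N) := fun γ x =>
    AlgEquiv.restrictNormal_commutes γ Es x
  obtain ⟨q, hq⟩ := ExpChar.exists F
  have hq' : ExpChar N q := expChar_of_injective_algebraMap (algebraMap F N).injective q
  have hq'' : ExpChar Es q := expChar_of_injective_algebraMap (algebraMap F Es).injective q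
  have hpow : ∀ s : N, ∃ (n : ℕ) (y : Es), (y : N) = s ^ q ^ n := fun s =>
    IsPurelyInseparable.pow_mem Es q s
  choose nn yy hyy using hpow
  have hfin : Finite (yy '' S) := (hSf.image yy).to_subtype
  let E0 : FiniteGaloisIntermediateField F Es := FiniteGaloisIntermediateField.adjoin F (yy '' S)
  let res : (Es ≃ₐ[F] Es) →* (E0 ≃ₐ[F] E0) := AlgEquiv.restrictNormalHom E0
  have hres : Function.Surjective res := AlgEquiv.restrictNormalHom_surjective _
  let π' : (Es ≃ₐ[F] Es) →* W := π.comp e.symm.toMonoidHom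
  have hker : res.ker ≤ π'.ker := by
    intro γ hγ
    rw [MonoidHom.mem_ker] at hγ ⊢
    change π (e.symm γ) = 1
    apply hS
    intro s hs
    have h1 : yy s ∈ (E0 : IntermediateField F Es) :=
      FiniteGaloisIntermediateField.subset_adjoin F (yy '' S) ⟨s, hs, rfl⟩
    have h2 : γ (yy s) = yy s := by
      have h3 := AlgEquiv.restrictNormal_commutes γ E0 (⟨yy s, h1⟩ : E0)
      have h4 : γ.restrictNormal E0 = 1 := hγ
      rw [h4] at h3
      exact h3.symm
    have h3 : (e.symm γ) (s ^ q ^ nn s) = s ^ q ^ nn s := by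
      rw [← hyy, ← he, MulEquiv.apply_symm_apply, h2]
    rw [map_pow] at h3
    exact iterateFrobenius_inj N q (nn s) h3
  let π'' : (E0 ≃ₐ[F] E0) →* W := res.liftOfSurjective hres ⟨π', hker⟩
  have hπ'' : ∀ γ, π'' (res γ) = π' γ := fun γ =>
    MonoidHom.liftOfRightInverse_comp_apply _ _ _ _ γ
  have hrange : π''.range = π.range := by
    ext w
    constructor
    · rintro ⟨γ0, rfl⟩
      obtain ⟨γ, rfl⟩ := hres γ0
      rw [hπ'']
      exact ⟨e.symm γ, rfl⟩
    · rintro ⟨γ, rfl⟩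
      refine ⟨res (e γ), ?_⟩
      rw [hπ'']
      change π (e.symm (e γ)) = π γ
      rw [MulEquiv.symm_apply_apply]
  refine ⟨IntermediateField.fixedField π''.ker, inferInstance, inferInstance,
    ⟨inferInstance, inferInstance⟩, ?_⟩
  exact ⟨(MulEquiv.subgroupCongr hrange.symm).trans
    ((QuotientGroup.quotientKerEquivRange π'').symm.trans
      (IsGalois.normalAutEquivQuotient π''.ker))⟩

open Classical in
/-- Generic realisation. -/
theorem gen_real (k G : Type) [Field k] [Infinite k] [Group G] [Finite G] :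
    ∃ n₀ : ℕ, ∀ n ≥ n₀, 3 ≤ n ∧ ∃ Γ : Subgroup (Wr G n),
      (∀ x : Wr G n, ∏ i, Abelianization.of (x.left i) = 1 → x ∈ Γ) ∧
      ∃ (ι : Type) (_ : Finite ι) (F : Type) (_ : Field F) (_ : Algebra (MvPolynomial ι k) F)
        (_ : IsFractionRing (MvPolynomial ι k) F) (E : Type) (_ : Field E) (_ : Algebra F E),
        (FiniteDimensional F E ∧ IsGalois F E) ∧ Nonempty (Γ ≃* (E ≃ₐ[F] E)) := by
  have := Fintype.ofFinite G
  obtain ⟨y, hy⟩ : ∃ y : MvPolynomial G k, y = H391R2.y0 k G := ⟨_, rfl⟩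
  have hYD : YData y := by
    rw [hy]
    exact ⟨H391R2.y0_rename_mul k G, H391R2.y0_stab k G⟩
  obtain ⟨Ψ, hm, hdeg, hΨ⟩ := H391R2.T4.exists_psi y
  obtain ⟨T, hT⟩ : ∃ T : ℕ, ∀ e, (Ψ.coeff e).totalDegree ≤ T := by
    refine ⟨(Finset.range (Ψ.natDegree + 1)).sup fun e => (Ψ.coeff e).totalDegree, fun e => ?_⟩
    by_cases he : e ≤ Ψ.natDegree
    · exact Finset.le_sup (f := fun e => (Ψ.coeff e).totalDegree)
        (Finset.mem_range.2 (Nat.lt_succ_of_le he))
    · rw [Polynomial.coeff_eq_zero_of_natDegree_lt (not_le.1 he), totalDegree_zero]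
      exact Nat.zero_le _
  have hd0 : 0 < (orb y).card := Finset.card_pos.2 ⟨_, y_mem_orb y⟩
  obtain ⟨n₀, hn₀⟩ := numbers (orb y).card T hd0
  refine ⟨n₀, fun n hn => ?_⟩
  obtain ⟨hn3, J, M, hJM, hM3, hTM, hDM⟩ := hn₀ n hn
  refine ⟨hn3, ?_⟩
  obtain ⟨d, hd, hdM, hsep⟩ := exists_data y J M hJM hM3
  let V := Unit ⊕ (Option (Fin (Fintype.card G)) ⊕ Option (Fin (Fintype.card G)))
  let F := FractionRing (MvPolynomial V k)
  let N := AlgebraicClosure F
  have hnormal : Normal F N := inferInstance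
  obtain ⟨r, vv, π, hπ1, hπ2⟩ := geo2 y d hd Ψ hm hΨ T hT hsep M hJM hTM hdM n hn3
    (by rw [hdeg]; exact hDM) (F := F) (N := N)
  obtain ⟨E, i1, i2, i3, ⟨e⟩⟩ := finite_descent π (Set.range r ∪ ⋃ i, Set.range (vv i))
    ((Set.finite_range r).union (Set.finite_iUnion fun i => Set.finite_range _))
    (fun γ hγ => hπ2 γ (fun i => hγ _ (Or.inl ⟨i, rfl⟩))
      (fun i g => hγ _ (Or.inr (Set.mem_iUnion.2 ⟨i, ⟨g, rfl⟩⟩))))
  exact ⟨π.range, hπ1, V, inferInstance, F, inferInstance, inferInstance, inferInstance,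
    E, i1, i2, i3, ⟨e⟩⟩

/-- Realisation over a Hilbertian field. -/
theorem hilb_real (k : Type) [Field k] [Infinite k] (hk : HP k k) (G : Type) [Group G]
    [Finite G] :
    ∃ n₀ : ℕ, ∀ n ≥ n₀, 3 ≤ n ∧ ∃ Γ : Subgroup (Wr G n),
      (∀ x : Wr G n, ∏ i, Abelianization.of (x.left i) = 1 → x ∈ Γ) ∧
      ∃ (L : Type) (_ : Field L) (_ : Algebra k L),
        (FiniteDimensional k L ∧ IsGalois k L) ∧ Nonempty (Γ ≃* (L ≃ₐ[k] L)) := by
  obtain ⟨n₀, hn₀⟩ := gen_real k G
  refine ⟨n₀, fun n hn => ?_⟩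
  obtain ⟨hn3, Γ, hΓ, ι, j1, F, j2, j3, j4, E, j5, j6, ⟨j7, j8⟩, ⟨e⟩⟩ := hn₀ n hn
  refine ⟨hn3, Γ, hΓ, ?_⟩
  obtain ⟨L, l1, l2, l3, ⟨e'⟩⟩ := galois_spec (K := k) (A := MvPolynomial ι k) (F := F) (N := E)
    (sp_mvPolynomial k hk ι)
  exact ⟨L, l1, l2, l3, ⟨e.trans e'⟩⟩

/-- Realisation over `κ(X)` for a finite field `κ`. -/
theorem fin_real (κ : Type) [Field κ] [Finite κ] (G : Type) [Group G] [Finite G] :
    ∃ n₀ : ℕ, ∀ n ≥ n₀, 3 ≤ n ∧ ∃ Γ : Subgroup (Wr G n),
      (∀ x : Wr G n, ∏ i, Abelianization.of (x.left i) = 1 → x ∈ Γ) ∧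
      ∃ (L : Type) (_ : Field L) (_ : Algebra (RatFunc κ) L),
        (FiniteDimensional (RatFunc κ) L ∧ IsGalois (RatFunc κ) L) ∧
          Nonempty (Γ ≃* (L ≃ₐ[RatFunc κ] L)) := by
  have hinf : Infinite (RatFunc κ) :=
    Infinite.of_injective _ (IsFractionRing.injective (Polynomial κ) (RatFunc κ))
  exact hilb_real (RatFunc κ) (hp_base (κ := κ) (RatFunc κ)) G

end Pool.Agent.W200.IG
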